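import Mathlib

set_option autoImplicit false

/-!
# Li coefficients of symmetric divisors in the critical strip: the asymptotic formula
-/

namespace Pool.Agent.Helper39.LiS

open Complex Filter Topology
open scoped ComplexConjugate

/-- multiplicities of points of the critical strip, symmetric in the critical line -/
structure Admissible (μ : ℂ → ℕ) : Prop where
  strip : ∀ ρ, μ ρ ≠ 0 → 0 < ρ.re ∧ ρ.re < 1
  refl : ∀ ρ, μ (1 - conj ρ) = μ ρ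
  summable : Summable fun ρ => (μ ρ : ℝ) / (1 + ‖ρ‖) ^ 2

/-- the Li coefficients -/
noncomputable def li (μ : ℂ → ℕ) (n : ℕ) : ℝ :=
  ∑' ρ : ℂ, (μ ρ : ℝ) * (1 - (1 - 1 / ρ) ^ n).re

variable {μ : ℂ → ℕ}

lemma Admissible.ne_zero (h : Admissible μ) {ρ : ℂ} (hρ : μ ρ ≠ 0) : ρ ≠ 0 := by
  rintro rfl
  have := (h.strip 0 hρ).1
  simp at this

lemma Admissible.finite (h : Admissible μ) (R : ℝ) : {ρ : ℂ | μ ρ ≠ 0 ∧ ‖ρ‖ ≤ R}.Finite := by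
  by_cases hR : R < 0
  · convert Set.finite_empty
    ext ρ
    simp only [Set.mem_ofPred_eq, Set.mem_empty_iff_false, iff_false, not_and, not_le]
    intro _
    exact hR.trans_le (norm_nonneg _)
  push Not at hR
  have h1 := h.summable.tendsto_cofinite_zero
  have h2 : ∀ᶠ ρ : ℂ in cofinite, (μ ρ : ℝ) / (1 + ‖ρ‖) ^ 2 < 1 / (1 + R) ^ 2 :=
    h1.eventually_lt_const (by positivity)
  refine Set.Finite.subset (Filter.eventually_cofinite.mp h2) ?_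
  rintro ρ ⟨h3, h4⟩
  simp only [Set.mem_ofPred_eq, not_lt]
  have h5 : (1 : ℝ) ≤ μ ρ := by exact_mod_cast Nat.one_le_iff_ne_zero.mpr h3
  gcongr

lemma Admissible.summable_inv (h : Admissible μ) : Summable fun ρ => (μ ρ : ℝ) / ‖ρ‖ ^ 2 := by
  refine Summable.of_norm_bounded_eventually (h.summable.mul_left 4) ?_
  have h1 : ∀ᶠ ρ : ℂ in cofinite, ¬ (μ ρ ≠ 0 ∧ ‖ρ‖ ≤ 1) := by
    rw [Filter.eventually_cofinite]
    simpa using h.finite 1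
  filter_upwards [h1] with ρ hρ
  rw [Real.norm_of_nonneg (by positivity)]
  by_cases h0 : μ ρ = 0
  · simp [h0]
  have h2 : 1 < ‖ρ‖ := by
    by_contra hcon
    exact hρ ⟨h0, not_lt.mp hcon⟩
  rw [← mul_div_assoc, div_le_div_iff₀ (by positivity) (by positivity)]
  have h3 : (1 + ‖ρ‖) ^ 2 ≤ 4 * ‖ρ‖ ^ 2 := by nlinarith
  calc (μ ρ : ℝ) * (1 + ‖ρ‖) ^ 2 ≤ (μ ρ : ℝ) * (4 * ‖ρ‖ ^ 2) := by gcongr
    _ = 4 * (μ ρ : ℝ) * ‖ρ‖ ^ 2 := by ring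

/-- Taylor's formula for a power -/
lemma pow_taylor (v : ℂ) (M : ℝ) (hM1 : 1 ≤ M) (hM : ‖1 - v‖ ≤ M) (n : ℕ) :
    ‖(1 - v) ^ n - 1 + n * v‖ ≤ n ^ 2 * ‖v‖ ^ 2 * M ^ n := by
  induction n with
  | zero => simp
  | succ n ih =>
    have hM0 : 0 ≤ M := by linarith
    have haux : ∀ k : ℕ, ‖(1 - v) ^ k - 1‖ ≤ k * ‖v‖ * M ^ k := by
      intro k
      induction k with
      | zero => simp
      | succ k ihk =>
        have e : (1 - v) ^ (k + 1) - 1 = (1 - v) * ((1 - v) ^ k - 1) - v := by ring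
        rw [e]
        calc ‖(1 - v) * ((1 - v) ^ k - 1) - v‖ ≤ ‖1 - v‖ * ‖(1 - v) ^ k - 1‖ + ‖v‖ := by
              refine (norm_sub_le _ _).trans ?_
              rw [norm_mul]
          _ ≤ M * (k * ‖v‖ * M ^ k) + ‖v‖ * M ^ (k + 1) := by
              have h1 : (1 : ℝ) ≤ M ^ (k + 1) := one_le_pow₀ hM1
              have h2 : ‖v‖ ≤ ‖v‖ * M ^ (k + 1) := le_mul_of_one_le_right (norm_nonneg _) h1
              gcongr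
          _ = ((k + 1 : ℕ) : ℝ) * ‖v‖ * M ^ (k + 1) := by push_cast; ring
    have e : (1 - v) ^ (n + 1) - 1 + ((n + 1 : ℕ) : ℂ) * v =
        ((1 - v) ^ n - 1 + n * v) - v * ((1 - v) ^ n - 1) := by push_cast; ring
    rw [e]
    calc ‖((1 - v) ^ n - 1 + n * v) - v * ((1 - v) ^ n - 1)‖
        ≤ ‖(1 - v) ^ n - 1 + n * v‖ + ‖v‖ * ‖(1 - v) ^ n - 1‖ := by
          refine (norm_sub_le _ _).trans ?_
          rw [norm_mul]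
      _ ≤ n ^ 2 * ‖v‖ ^ 2 * M ^ n + ‖v‖ * (n * ‖v‖ * M ^ n) := by
          gcongr
          exact haux n
      _ = (n ^ 2 + n) * ‖v‖ ^ 2 * M ^ n := by ring
      _ ≤ ((n + 1 : ℕ) : ℝ) ^ 2 * ‖v‖ ^ 2 * M ^ (n + 1) := by
          have h1 : M ^ n ≤ M ^ (n + 1) := pow_le_pow_right₀ hM1 (by omega)
          have h2 : ((n : ℝ) ^ 2 + n) ≤ ((n + 1 : ℕ) : ℝ) ^ 2 := by
            push_cast
            have : (0 : ℝ) ≤ n := Nat.cast_nonneg n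
            nlinarith
          gcongr

/-- the summands -/
lemma term_le {ρ : ℂ} (hρ : ρ ≠ 0) (h0 : 0 < ρ.re) (h1 : ρ.re < 1) {M : ℝ} (hM1 : 1 ≤ M)
    (hM : ‖1 - 1 / ρ‖ ≤ M) (n : ℕ) :
    |(1 - (1 - 1 / ρ) ^ n).re| ≤ 2 * n ^ 2 * M ^ n / ‖ρ‖ ^ 2 := by
  have hT := pow_taylor (1 / ρ) M hM1 hM n
  have e : (1 - (1 - 1 / ρ) ^ n).re = n * (1 / ρ).re - ((1 - 1 / ρ) ^ n - 1 + n * (1 / ρ)).re := by
    simp
  have hn : 0 < ‖ρ‖ := norm_pos_iff.mpr hρ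
  have hv : (1 / ρ).re = ρ.re / ‖ρ‖ ^ 2 := by
    rw [one_div, Complex.inv_re, ← Complex.normSq_eq_norm_sq]
  have hv2 : ‖1 / ρ‖ ^ 2 = 1 / ‖ρ‖ ^ 2 := by
    rw [norm_div, norm_one, div_pow, one_pow]
  have h4 : |((1 - 1 / ρ) ^ n - 1 + n * (1 / ρ)).re| ≤ n ^ 2 * (1 / ‖ρ‖ ^ 2) * M ^ n := by
    rw [← hv2]
    exact (abs_re_le_norm _).trans hT
  have hMn : 1 ≤ M ^ n := one_le_pow₀ hM1
  have hnn : (n : ℝ) ≤ n ^ 2 := by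
    rcases Nat.eq_zero_or_pos n with h | h
    · rw [h]; simp
    · have : (1 : ℝ) ≤ n := by exact_mod_cast h
      nlinarith
  have h5 : |(n : ℝ) * (1 / ρ).re| ≤ n ^ 2 * M ^ n * (1 / ‖ρ‖ ^ 2) := by
    rw [hv, abs_mul, abs_of_nonneg (Nat.cast_nonneg n), abs_of_nonneg (by positivity)]
    have h6 : (n : ℝ) ≤ n ^ 2 * M ^ n := by
      calc (n : ℝ) ≤ n ^ 2 * 1 := by linarith
        _ ≤ n ^ 2 * M ^ n := by gcongr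
    gcongr
  rw [e]
  calc |(n : ℝ) * (1 / ρ).re - ((1 - 1 / ρ) ^ n - 1 + n * (1 / ρ)).re|
      ≤ |(n : ℝ) * (1 / ρ).re| + |((1 - 1 / ρ) ^ n - 1 + n * (1 / ρ)).re| := abs_sub _ _
    _ ≤ n ^ 2 * M ^ n * (1 / ‖ρ‖ ^ 2) + n ^ 2 * (1 / ‖ρ‖ ^ 2) * M ^ n := add_le_add h5 h4
    _ = 2 * n ^ 2 * M ^ n / ‖ρ‖ ^ 2 := by ring

lemma normSq_w {ρ : ℂ} (hρ : ρ ≠ 0) : ‖1 - 1 / ρ‖ ^ 2 = 1 + (1 - 2 * ρ.re) / ‖ρ‖ ^ 2 := by
  have e : 1 - 1 / ρ = (ρ - 1) / ρ := by field_simp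
  have hn : ‖ρ‖ ≠ 0 := norm_ne_zero_iff.mpr hρ
  rw [e, norm_div, div_pow]
  have h1 : ‖ρ - 1‖ ^ 2 = ‖ρ‖ ^ 2 + (1 - 2 * ρ.re) := by
    rw [← Complex.normSq_eq_norm_sq, ← Complex.normSq_eq_norm_sq, Complex.normSq_apply,
      Complex.normSq_apply]
    simp
    ring
  rw [h1]
  field_simp

lemma one_lt_w {ρ : ℂ} (hρ : ρ ≠ 0) (h : ρ.re < 1 / 2) : 1 < ‖1 - 1 / ρ‖ := by
  have h1 := normSq_w hρ
  have hn : 0 < ‖ρ‖ := norm_pos_iff.mpr hρ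
  have h2 : 0 < (1 - 2 * ρ.re) / ‖ρ‖ ^ 2 := div_pos (by linarith) (by positivity)
  by_contra hcon
  push Not at hcon
  have : ‖1 - 1 / ρ‖ ^ 2 ≤ 1 := pow_le_one₀ (norm_nonneg _) hcon
  linarith

/-- a bound for all the bases -/
lemma exists_bound (h : Admissible μ) : ∃ M : ℝ, 1 ≤ M ∧ ∀ ρ, μ ρ ≠ 0 → ‖1 - 1 / ρ‖ ≤ M := by
  have hf := h.finite 1
  obtain ⟨B, hB⟩ := (hf.image fun ρ : ℂ => ‖1 - 1 / ρ‖).bddAbove
  refine ⟨max B 2, (by norm_num : (1 : ℝ) ≤ 2).trans (le_max_right _ _), fun ρ hρ => ?_⟩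
  by_cases h1 : ‖ρ‖ ≤ 1
  · exact (hB ⟨ρ, ⟨hρ, h1⟩, rfl⟩).trans (le_max_left _ _)
  · push Not at h1
    refine le_trans ?_ (le_max_right _ _)
    calc ‖1 - 1 / ρ‖ ≤ ‖(1 : ℂ)‖ + ‖1 / ρ‖ := norm_sub_le _ _
      _ ≤ 1 + 1 := by
          rw [norm_one, norm_div, norm_one]
          gcongr
          rw [div_le_one (by linarith)]
          exact h1.le
      _ = 2 := by norm_num

lemma Admissible.summable_li (h : Admissible μ) (n : ℕ) :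
    Summable fun ρ : ℂ => (μ ρ : ℝ) * (1 - (1 - 1 / ρ) ^ n).re := by
  obtain ⟨M, hM1, hM⟩ := exists_bound h
  refine Summable.of_norm_bounded (h.summable_inv.mul_left (2 * n ^ 2 * M ^ n)) fun ρ => ?_
  by_cases h0 : μ ρ = 0
  · simp [h0]
  obtain ⟨h1, h2⟩ := h.strip ρ h0
  rw [norm_mul, Real.norm_of_nonneg (Nat.cast_nonneg _), Real.norm_eq_abs]
  calc (μ ρ : ℝ) * |(1 - (1 - 1 / ρ) ^ n).re|
      ≤ (μ ρ : ℝ) * (2 * n ^ 2 * M ^ n / ‖ρ‖ ^ 2) := by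
        gcongr
        exact term_le (h.ne_zero h0) h1 h2 hM1 (hM ρ h0) n
    _ = 2 * n ^ 2 * M ^ n * ((μ ρ : ℝ) / ‖ρ‖ ^ 2) := by ring

/-- **the asymptotic formula** -/
theorem asymp (h : Admissible μ) {ρ₀ : ℂ} (h0 : μ ρ₀ ≠ 0) (hne : ρ₀.re ≠ 1 / 2) :
    ∃ (J : Finset ℂ) (r r' K : ℝ), J.Nonempty ∧ (∀ ρ ∈ J, μ ρ ≠ 0 ∧ ‖1 - 1 / ρ‖ = r) ∧
      1 ≤ r' ∧ r' < r ∧ 0 < K ∧
      ∀ n : ℕ, 1 ≤ n → |li μ n + ∑ ρ ∈ J, (μ ρ : ℝ) * ((1 - 1 / ρ) ^ n).re| ≤ K * (n ^ 2 * r' ^ n) := by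
  classical
  -- a point to the left of the line
  obtain ⟨ρ₁, h1, h2⟩ : ∃ ρ₁ : ℂ, μ ρ₁ ≠ 0 ∧ ρ₁.re < 1 / 2 := by
    rcases lt_or_gt_of_ne hne with h1 | h1
    · exact ⟨ρ₀, h0, h1⟩
    · refine ⟨1 - conj ρ₀, by rwa [h.refl], ?_⟩
      simp
      linarith
  have hr1 := one_lt_w (h.ne_zero h1) h2
  -- far points have small bases
  obtain ⟨s, hs1, hs2⟩ := exists_between hr1
  obtain ⟨R, hR0, hR⟩ : ∃ R : ℝ, 0 < R ∧ ∀ ρ : ℂ, μ ρ ≠ 0 → R < ‖ρ‖ → ‖1 - 1 / ρ‖ ≤ s := by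
    refine ⟨1 / (s - 1), by have : 0 < s - 1 := by linarith
                            positivity, fun ρ _ hρ => ?_⟩
    have hs0 : 0 < s - 1 := by linarith
    have hρ0 : 0 < ‖ρ‖ := lt_trans (by positivity) hρ
    calc ‖1 - 1 / ρ‖ ≤ ‖(1 : ℂ)‖ + ‖1 / ρ‖ := norm_sub_le _ _
      _ = 1 + 1 / ‖ρ‖ := by rw [norm_one, norm_div, norm_one]
      _ ≤ 1 + (s - 1) := by
          gcongr
          rw [div_le_iff₀ hρ0]
          rw [div_lt_iff₀ hs0] at hρ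
          linarith
      _ = s := by ring
  obtain ⟨F, hF⟩ : ∃ F : Finset ℂ, ∀ ρ, ρ ∈ F ↔ (μ ρ ≠ 0 ∧ ‖ρ‖ ≤ R) :=
    ⟨(h.finite R).toFinset, fun ρ => by simp⟩
  have hρ₁F : ρ₁ ∈ F := by
    rw [hF]
    refine ⟨h1, ?_⟩
    by_contra hcon
    push Not at hcon
    have := hR ρ₁ h1 hcon
    linarith
  obtain ⟨ρ₂, hρ₂F, hmax⟩ := F.exists_max_image (fun ρ => ‖1 - 1 / ρ‖) ⟨ρ₁, hρ₁F⟩
  obtain ⟨r, hr⟩ : ∃ r : ℝ, r = ‖1 - 1 / ρ₂‖ := ⟨_, rfl⟩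
  have hr1' : ‖1 - 1 / ρ₁‖ ≤ r := by
    rw [hr]
    exact hmax ρ₁ hρ₁F
  obtain ⟨J, hJ⟩ : ∃ J : Finset ℂ, J = F.filter fun ρ => ‖1 - 1 / ρ‖ = r := ⟨_, rfl⟩
  -- the second largest
  obtain ⟨r', hr'1, hr'2, hr'3⟩ : ∃ r' : ℝ, s ≤ r' ∧ r' < r ∧
      ∀ ρ, μ ρ ≠ 0 → ρ ∉ J → ‖1 - 1 / ρ‖ ≤ r' := by
    have hsr : s < r := by linarith
    obtain ⟨G, hG⟩ : ∃ G : Finset ℂ, G = F.filter fun ρ => ‖1 - 1 / ρ‖ ≠ r := ⟨_, rfl⟩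
    have key : ∀ t : ℝ, s ≤ t → t < r → (∀ ρ ∈ G, ‖1 - 1 / ρ‖ ≤ t) → ∃ r' : ℝ, s ≤ r' ∧ r' < r ∧
        ∀ ρ, μ ρ ≠ 0 → ρ ∉ J → ‖1 - 1 / ρ‖ ≤ r' := by
      intro t ht1 ht2 ht3
      refine ⟨t, ht1, ht2, fun ρ h3 h4 => ?_⟩
      by_cases h5 : ‖ρ‖ ≤ R
      · apply ht3
        rw [hG, Finset.mem_filter]
        have h6 : ρ ∈ F := by rw [hF]; exact ⟨h3, h5⟩
        refine ⟨h6, fun h7 => h4 ?_⟩
        rw [hJ, Finset.mem_filter]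
        exact ⟨h6, h7⟩
      · push Not at h5
        exact (hR ρ h3 h5).trans ht1
    rcases G.eq_empty_or_nonempty with h3 | h3
    · exact key s le_rfl hsr (by simp [h3])
    · obtain ⟨ρ₃, hρ₃, hmax3⟩ := G.exists_max_image (fun ρ => ‖1 - 1 / ρ‖) h3
      have h4 : ‖1 - 1 / ρ₃‖ < r := by
        have h5 := hρ₃
        rw [hG, Finset.mem_filter] at h5
        refine lt_of_le_of_ne ?_ h5.2
        rw [hr]
        exact hmax ρ₃ h5.1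
      refine key (max s ‖1 - 1 / ρ₃‖) (le_max_left _ _) (max_lt hsr h4) fun ρ hρ => ?_
      exact (hmax3 ρ hρ).trans (le_max_right _ _)
  have hr'0 : 1 ≤ r' := by linarith
  obtain ⟨T, hT⟩ : ∃ T : ℝ, T = ∑' ρ : ℂ, (μ ρ : ℝ) / ‖ρ‖ ^ 2 := ⟨_, rfl⟩
  have hT0 : 0 ≤ T := by rw [hT]; exact tsum_nonneg fun ρ => by positivity
  obtain ⟨D, hD⟩ : ∃ D : ℝ, D = ∑ ρ ∈ J, (μ ρ : ℝ) := ⟨_, rfl⟩
  have hD0 : 0 ≤ D := by rw [hD]; exact Finset.sum_nonneg fun ρ _ => Nat.cast_nonneg _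
  refine ⟨J, r, r', D + 2 * T + 1, ?_, ?_, hr'0, hr'2, by positivity, fun n hn => ?_⟩
  · refine ⟨ρ₂, ?_⟩
    rw [hJ, Finset.mem_filter]
    exact ⟨hρ₂F, hr.symm⟩
  · intro ρ hρ
    rw [hJ, Finset.mem_filter, hF] at hρ
    exact ⟨hρ.1.1, hρ.2⟩
  -- split the sum
  have hsum := h.summable_li n
  have hsplit : li μ n = ∑ ρ ∈ J, (μ ρ : ℝ) * (1 - (1 - 1 / ρ) ^ n).re +
      ∑' ρ : ℂ, (if ρ ∈ J then 0 else (μ ρ : ℝ) * (1 - (1 - 1 / ρ) ^ n).re) := by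
    have e1 : ∑ ρ ∈ J, (μ ρ : ℝ) * (1 - (1 - 1 / ρ) ^ n).re =
        ∑' ρ : ℂ, (if ρ ∈ J then (μ ρ : ℝ) * (1 - (1 - 1 / ρ) ^ n).re else 0) := by
      rw [tsum_eq_sum (s := J)]
      · exact Finset.sum_congr rfl fun ρ hρ => by rw [if_pos hρ]
      · intro ρ hρ
        rw [if_neg hρ]
    rw [e1, ← Summable.tsum_add]
    · unfold li
      congr 1
      ext ρ
      by_cases h3 : ρ ∈ J <;> simp [h3]
    · refine summable_of_ne_finset_zero (s := J) fun ρ hρ => ?_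
      rw [if_neg hρ]
    · refine Summable.of_norm_bounded hsum.norm fun ρ => ?_
      by_cases h3 : ρ ∈ J
      · rw [if_pos h3, norm_zero]
        exact norm_nonneg _
      · rw [if_neg h3]
  have hrest : |∑' ρ : ℂ, (if ρ ∈ J then 0 else (μ ρ : ℝ) * (1 - (1 - 1 / ρ) ^ n).re)| ≤
      2 * T * (n ^ 2 * r' ^ n) := by
    have hb : ∀ ρ : ℂ, ‖(if ρ ∈ J then 0 else (μ ρ : ℝ) * (1 - (1 - 1 / ρ) ^ n).re)‖ ≤
        2 * n ^ 2 * r' ^ n * ((μ ρ : ℝ) / ‖ρ‖ ^ 2) := by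
      intro ρ
      by_cases h3 : ρ ∈ J
      · rw [if_pos h3, norm_zero]
        positivity
      rw [if_neg h3]
      by_cases h4 : μ ρ = 0
      · simp [h4]
      obtain ⟨h5, h6⟩ := h.strip ρ h4
      rw [norm_mul, Real.norm_of_nonneg (Nat.cast_nonneg _), Real.norm_eq_abs]
      calc (μ ρ : ℝ) * |(1 - (1 - 1 / ρ) ^ n).re|
          ≤ (μ ρ : ℝ) * (2 * n ^ 2 * r' ^ n / ‖ρ‖ ^ 2) := by
            gcongr
            exact term_le (h.ne_zero h4) h5 h6 hr'0 (hr'3 ρ h4 h3) n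
        _ = 2 * n ^ 2 * r' ^ n * ((μ ρ : ℝ) / ‖ρ‖ ^ 2) := by ring
    have h7 := tsum_of_norm_bounded (h.summable_inv.mul_left (2 * n ^ 2 * r' ^ n)).hasSum hb
    rw [Real.norm_eq_abs, tsum_mul_left, ← hT] at h7
    linarith
  have e2 : li μ n + ∑ ρ ∈ J, (μ ρ : ℝ) * ((1 - 1 / ρ) ^ n).re = D +
      ∑' ρ : ℂ, (if ρ ∈ J then 0 else (μ ρ : ℝ) * (1 - (1 - 1 / ρ) ^ n).re) := by
    rw [hsplit, hD]
    have : ∑ ρ ∈ J, (μ ρ : ℝ) * (1 - (1 - 1 / ρ) ^ n).re +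
        ∑ ρ ∈ J, (μ ρ : ℝ) * ((1 - 1 / ρ) ^ n).re = ∑ ρ ∈ J, (μ ρ : ℝ) := by
      rw [← Finset.sum_add_distrib]
      refine Finset.sum_congr rfl fun ρ _ => ?_
      rw [Complex.sub_re, Complex.one_re]
      ring
    linarith
  rw [e2]
  have h8 : 1 ≤ (n : ℝ) ^ 2 * r' ^ n := by
    have h9 : (1 : ℝ) ≤ n := by exact_mod_cast hn
    have h10 : 1 ≤ r' ^ n := one_le_pow₀ hr'0
    calc (1 : ℝ) = 1 ^ 2 * 1 := by norm_num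
      _ ≤ (n : ℝ) ^ 2 * r' ^ n := by gcongr
  calc |D + ∑' ρ : ℂ, (if ρ ∈ J then 0 else (μ ρ : ℝ) * (1 - (1 - 1 / ρ) ^ n).re)|
      ≤ |D| + |∑' ρ : ℂ, (if ρ ∈ J then 0 else (μ ρ : ℝ) * (1 - (1 - 1 / ρ) ^ n).re)| := abs_add_le _ _
    _ ≤ D * (n ^ 2 * r' ^ n) + 2 * T * (n ^ 2 * r' ^ n) := by
        rw [abs_of_nonneg hD0]
        gcongr
        exact le_mul_of_one_le_right hD0 h8
    _ ≤ (D + 2 * T + 1) * (n ^ 2 * r' ^ n) := by nlinarith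

end Pool.Agent.Helper39.LiS
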