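import Pool.Agent.Helper39.LiS.Words

set_option autoImplicit false

/-!
# The converse: configurations with positive Li coefficients along a set which is not Bohr recurrent
-/

namespace Pool.Agent.Helper39.LiS

open Finset Complex
open scoped ComplexConjugate

section fibres

variable {ι : Type} (s : Finset ι) (f : ι → ℂ) (g : ℂ → ℝ)

open Classical in
/-- the number of the points of a finite family at a given place -/
noncomputable def fib (ρ : ℂ) : ℕ := (s.filter fun i => f i = ρ).card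

variable {s f} in
lemma fib_ne {ρ : ℂ} (h : fib s f ρ ≠ 0) : ∃ i ∈ s, f i = ρ := by
  classical
  obtain ⟨i, hi⟩ := Finset.card_pos.mp (Nat.pos_of_ne_zero h)
  rw [mem_filter] at hi
  exact ⟨i, hi⟩

variable {s} in
lemma fib_mem {i : ι} (hi : i ∈ s) : fib s f (f i) ≠ 0 := by
  classical
  unfold fib
  refine (Finset.card_pos.mpr ⟨i, ?_⟩).ne'
  rw [mem_filter]
  exact ⟨hi, rfl⟩

open Classical in
lemma fib_out {ρ : ℂ} (hρ : ρ ∉ s.image f) : fib s f ρ = 0 := by
  by_contra h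
  obtain ⟨i, hi, rfl⟩ := fib_ne h
  exact hρ (mem_image_of_mem f hi)

lemma tsum_fib : ∑' ρ, (fib s f ρ : ℝ) * g ρ = ∑ i ∈ s, g (f i) := by
  classical
  rw [tsum_eq_sum (s := s.image f)]
  · rw [Finset.sum_comp g f]
    refine sum_congr rfl fun ρ _ => ?_
    rw [nsmul_eq_mul]
    unfold fib
    congr!
  · intro ρ hρ
    rw [fib_out s f hρ]
    simp

lemma summable_fib : Summable fun ρ => (fib s f ρ : ℝ) * g ρ := by
  classical
  refine summable_of_ne_finset_zero (s := s.image f) fun ρ hρ => ?_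
  rw [fib_out s f hρ]
  simp

/-- a finite family and its mirror image -/
noncomputable def mirr (ρ : ℂ) : ℕ := fib s f ρ + fib s (fun i => 1 - conj (f i)) ρ

variable {s f}

lemma fib_refl (ρ : ℂ) : fib s f (1 - conj ρ) = fib s (fun i => 1 - conj (f i)) ρ := by
  classical
  unfold fib
  congr 1
  ext i
  simp only [mem_filter]
  refine and_congr_right fun _ => ?_
  constructor
  · intro h
    rw [h]
    simp
  · intro h
    rw [← h]
    simp

lemma mirr_refl (ρ : ℂ) : mirr s f (1 - conj ρ) = mirr s f ρ := by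
  unfold mirr
  rw [fib_refl, fib_refl]
  simp only [map_sub, map_one, conj_conj, sub_sub_cancel]
  exact add_comm _ _

lemma mirr_admissible (h : ∀ i ∈ s, 0 < (f i).re ∧ (f i).re < 1) : Admissible (mirr s f) := by
  refine ⟨fun ρ hρ => ?_, mirr_refl, ?_⟩
  · have h1 : fib s f ρ ≠ 0 ∨ fib s (fun i => 1 - conj (f i)) ρ ≠ 0 := by
      unfold mirr at hρ
      omega
    rcases h1 with h1 | h1
    · obtain ⟨i, hi, rfl⟩ := fib_ne h1
      exact h i hi
    · obtain ⟨i, hi, rfl⟩ := fib_ne h1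
      have := h i hi
      simp
      exact ⟨this.2, this.1⟩
  · have h1 := (summable_fib s f fun ρ => 1 / (1 + ‖ρ‖) ^ 2).add
      (summable_fib s (fun i => 1 - conj (f i)) fun ρ => 1 / (1 + ‖ρ‖) ^ 2)
    convert h1 using 2 with ρ
    unfold mirr
    push_cast
    ring

lemma li_mirr (n : ℕ) : li (mirr s f) n =
    ∑ i ∈ s, ((1 - (1 - 1 / f i) ^ n).re + (1 - (1 - 1 / (1 - conj (f i))) ^ n).re) := by
  rw [sum_add_distrib, ← tsum_fib s f fun ρ => (1 - (1 - 1 / ρ) ^ n).re,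
    ← tsum_fib s (fun i => 1 - conj (f i)) fun ρ => (1 - (1 - 1 / ρ) ^ n).re,
    ← (summable_fib s f _).tsum_add (summable_fib s _ _)]
  unfold li mirr
  congr 1
  ext ρ
  push_cast
  ring

lemma mirr_finite : {ρ | mirr s f ρ ≠ 0}.Finite := by
  classical
  refine Set.Finite.subset ((s.image f) ∪ (s.image fun i => 1 - conj (f i))).finite_toSet ?_
  intro ρ hρ
  have h1 : fib s f ρ ≠ 0 ∨ fib s (fun i => 1 - conj (f i)) ρ ≠ 0 := by
    have : mirr s f ρ ≠ 0 := hρ
    unfold mirr at this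
    omega
  rw [Finset.coe_union]
  rcases h1 with h1 | h1
  · left
    obtain ⟨i, hi, rfl⟩ := fib_ne h1
    exact mem_coe.mpr (mem_image_of_mem _ hi)
  · right
    obtain ⟨i, hi, rfl⟩ := fib_ne h1
    exact mem_coe.mpr (mem_image_of_mem (fun i => 1 - conj (f i)) hi)

end fibres

/-- the point with a given base -/
noncomputable def pt (R δ : ℝ) : ℂ := 1 / (1 - R * ex δ)

lemma ex_pow (δ : ℝ) (n : ℕ) : ex δ ^ n = ex (n * δ) := by
  unfold ex
  rw [← Complex.exp_nat_mul]
  congr 1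
  push_cast
  ring

lemma pow_mul_ex_re (R δ : ℝ) (n : ℕ) :
    (((R : ℂ) * ex δ) ^ n).re = R ^ n * Real.cos (2 * Real.pi * (n * δ)) := by
  rw [mul_pow, ex_pow, ← ofReal_pow, re_ofReal_mul, ex_re]

lemma pt_conj (R δ : ℝ) : conj (pt R δ) = pt R (-δ) := by
  unfold pt
  rw [ex_neg]
  simp

section pts

variable {R δ : ℝ} (hR : 1 < R) (h : R * Real.cos (2 * Real.pi * δ) < 1)

include h in
lemma pt_den : (1 - R * ex δ : ℂ) ≠ 0 := by
  intro h0
  have h1 := congrArg Complex.re h0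
  rw [sub_re, re_ofReal_mul, ex_re] at h1
  simp at h1
  linarith

include h in
lemma pt_w : 1 - 1 / pt R δ = R * ex δ := by
  have := pt_den h
  unfold pt
  field_simp
  ring

include hR h in
lemma pt_w' : 1 - 1 / (1 - conj (pt R δ)) = ((1 / R : ℝ) : ℂ) * ex δ := by
  have h1 : (1 - R * ex (-δ) : ℂ) ≠ 0 := by
    apply pt_den
    rw [mul_neg, Real.cos_neg]
    exact h
  have h2 : ex δ * ex (-δ) = 1 := by rw [← ex_add, add_neg_cancel, ex_zero]
  have h3 : ex (-δ) ≠ 0 := right_ne_zero_of_mul_eq_one h2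
  have h4 : (R : ℂ) ≠ 0 := by exact_mod_cast (by linarith : R ≠ 0)
  have h5 : (1 : ℂ) - pt R (-δ) = -(R * ex (-δ)) / (1 - R * ex (-δ)) := by
    unfold pt
    field_simp
    ring
  rw [pt_conj, h5]
  have h6 : ex δ = 1 / ex (-δ) := by rw [eq_div_iff h3, h2]
  rw [h6]
  push_cast
  field_simp
  ring

include hR h in
lemma pt_re : 0 < (pt R δ).re ∧ (pt R δ).re < 1 ∧ (pt R δ).re ≠ 1 / 2 := by
  have h1 := pt_den h
  obtain ⟨t, ht⟩ : ∃ t, t = R * Real.cos (2 * Real.pi * δ) := ⟨_, rfl⟩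
  have hre : (1 - R * ex δ : ℂ).re = 1 - t := by
    rw [sub_re, re_ofReal_mul, ex_re, one_re, ht]
  have hN : normSq (1 - R * ex δ : ℂ) = 1 - 2 * t + R ^ 2 := by
    have e1 : normSq (R * ex δ : ℂ) = R ^ 2 := by
      rw [normSq_eq_norm_sq, norm_mul, norm_ex, norm_real, mul_one, sq, Real.norm_eq_abs, abs_mul_abs_self]
      ring
    have e2 : (R * ex δ : ℂ).re = t := by rw [re_ofReal_mul, ex_re, ht]
    rw [normSq_apply] at e1 ⊢
    simp only [sub_re, one_re, sub_im, one_im, e2] at e1 ⊢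
    linarith
  have hpos : 0 < 1 - 2 * t + R ^ 2 := by
    rw [← hN]
    exact normSq_pos.mpr h1
  have e : (pt R δ).re = (1 - t) / (1 - 2 * t + R ^ 2) := by
    unfold pt
    rw [one_div, inv_re, hre, hN]
  rw [← ht] at h
  have hR2 : 1 < R ^ 2 := by nlinarith
  rw [e]
  refine ⟨by have : 0 < 1 - t := by linarith
             positivity, ?_, ?_⟩
  · rw [div_lt_one hpos]
    nlinarith
  · intro h2
    rw [div_eq_iff hpos.ne'] at h2
    nlinarith

end pts

/-- **the converse** -/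
theorem conv {S : Set ℕ} (hS : ¬ BohrRecurrent S) :
    ∃ μ : ℂ → ℕ, Admissible μ ∧ (∀ ρ, μ (conj ρ) = μ ρ) ∧ {ρ | μ ρ ≠ 0}.Finite ∧
      (∃ ρ, μ ρ ≠ 0 ∧ ρ.re ≠ 1 / 2) ∧
      ∃ c : ℝ, 0 < c ∧ ∀ n ∈ S, 0 < n → Real.exp (c * n) ≤ li μ n := by
  classical
  unfold BohrRecurrent at hS
  push Not at hS
  obtain ⟨k, α, ε, hε, hS⟩ := hS
  obtain ⟨β, hβ⟩ : ∃ β : Fin (k + 1) → ℝ, β = Fin.cons (1 / 2) α := ⟨_, rfl⟩
  obtain ⟨M, C, hM, hC, hC2, hC3⟩ := exists_kernel (Nat.succ_pos k) β hε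
  obtain ⟨W, hW⟩ : ∃ W : Type, W = (Fin M → Fin (k + 1) × Bool) := ⟨_, rfl⟩
  subst hW
  obtain ⟨D, hD⟩ : ∃ D : (Fin M → Fin (k + 1) × Bool) × (Fin M → Fin (k + 1) × Bool) → ℝ,
      D = fun p => phase β p.1 - phase β p.2 := ⟨_, rfl⟩
  -- the pairs with non-integral difference
  obtain ⟨P, hP⟩ : ∃ P : Finset ((Fin M → Fin (k + 1) × Bool) × (Fin M → Fin (k + 1) × Bool)),
      ∀ p, p ∈ P ↔ ¬ ∃ m : ℤ, D p = m := ⟨univ.filter fun p => ¬ ∃ m : ℤ, D p = m, fun p => by simp⟩
  -- nonempty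
  obtain ⟨p₀, hp₀⟩ : ∃ p₀, p₀ ∈ P := by
    obtain ⟨a, b, hab⟩ := exists_diff β hM 0
    refine ⟨(a, b), ?_⟩
    rw [hP, hD]
    rintro ⟨m, hm⟩
    simp only at hm
    rw [hab, hβ] at hm
    simp only [Fin.cons_zero] at hm
    have h1 : (1 : ℝ) = 2 * m := by linarith
    have h2 : (1 : ℤ) = 2 * m := by exact_mod_cast h1
    omega
  -- the cosines are bounded away from one
  have hcos : ∀ p ∈ P, Real.cos (2 * Real.pi * D p) < 1 := by
    intro p hp
    rw [hP] at hp
    refine lt_of_le_of_ne (Real.cos_le_one _) fun h1 => hp ?_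
    rw [Real.cos_eq_one_iff] at h1
    obtain ⟨m, hm⟩ := h1
    refine ⟨m, ?_⟩
    have := Real.pi_pos
    have h2 : 2 * Real.pi * (D p - m) = 0 := by rw [mul_sub, ← hm]; ring
    rcases mul_eq_zero.mp h2 with h3 | h3
    · linarith
    · linarith
  obtain ⟨c, hc0, hc1, hc2⟩ : ∃ c : ℝ, 0 ≤ c ∧ c < 1 ∧ ∀ p ∈ P, Real.cos (2 * Real.pi * D p) ≤ c := by
    obtain ⟨q, hq, hmax⟩ := P.exists_max_image (fun p => Real.cos (2 * Real.pi * D p)) ⟨p₀, hp₀⟩
    exact ⟨max 0 (Real.cos (2 * Real.pi * D q)), le_max_left _ _, max_lt one_pos (hcos q hq),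
      fun p hp => (hmax p hp).trans (le_max_right _ _)⟩
  obtain ⟨R, hRdef⟩ : ∃ R : ℝ, R = 2 / (1 + c) := ⟨_, rfl⟩
  have hR1 : 1 < R := by
    rw [hRdef, lt_div_iff₀ (by linarith)]
    linarith
  have hR0 : 0 < R := by linarith
  have hRc : ∀ p ∈ P, R * Real.cos (2 * Real.pi * D p) < 1 := by
    intro p hp
    calc R * Real.cos (2 * Real.pi * D p) ≤ R * c := by
          have := hc2 p hp
          gcongr
      _ < 1 := by
          rw [hRdef, div_mul_eq_mul_div, div_lt_one (by linarith)]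
          linarith
  obtain ⟨f, hf⟩ : ∃ f : (Fin M → Fin (k + 1) × Bool) × (Fin M → Fin (k + 1) × Bool) → ℂ,
      f = fun p => pt R (D p) := ⟨_, rfl⟩
  have hadm : Admissible (mirr P f) := mirr_admissible fun p hp => by
    rw [hf]
    have := pt_re hR1 (hRc p hp)
    exact ⟨this.1, this.2.1⟩
  have hli : ∀ n : ℕ, li (mirr P f) n =
      2 * P.card - (R ^ n + (1 / R) ^ n) * ∑ p ∈ P, Real.cos (2 * Real.pi * (n * D p)) := by
    intro n
    rw [li_mirr, mul_sum, mul_comm (2 : ℝ), ← nsmul_eq_mul, ← sum_const, ← sum_sub_distrib]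
    refine sum_congr rfl fun p hp => ?_
    rw [hf]
    simp only
    rw [pt_w (hRc p hp), pt_w' hR1 (hRc p hp), sub_re, sub_re, pow_mul_ex_re, pow_mul_ex_re, one_re]
    ring
  -- swapping
  have hswap : ∀ p, p ∈ P → p.swap ∈ P := by
    intro p hp
    rw [hP] at hp ⊢
    rintro ⟨m, hm⟩
    apply hp
    refine ⟨-m, ?_⟩
    rw [hD] at hm ⊢
    simp only [Prod.fst_swap, Prod.snd_swap] at hm ⊢
    push_cast
    linarith
  have hfswap : ∀ p, f p.swap = conj (f p) := by
    intro p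
    rw [hf]
    simp only
    rw [pt_conj]
    congr 1
    rw [hD]
    simp
  have hfibc : ∀ (F : (Fin M → Fin (k + 1) × Bool) × (Fin M → Fin (k + 1) × Bool) → ℂ),
      (∀ p, F p.swap = conj (F p)) → ∀ ρ, fib P F (conj ρ) = fib P F ρ := by
    intro F hF ρ
    unfold fib
    refine Finset.card_bij' (fun p _ => p.swap) (fun p _ => p.swap) ?_ ?_ ?_ ?_
    · intro p hp
      rw [mem_filter] at hp ⊢
      refine ⟨hswap p hp.1, ?_⟩
      rw [hF, hp.2, conj_conj]
    · intro p hp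
      rw [mem_filter] at hp ⊢
      refine ⟨hswap p hp.1, ?_⟩
      rw [hF, hp.2]
    · intro p _
      exact Prod.swap_swap p
    · intro p _
      exact Prod.swap_swap p
  refine ⟨mirr P f, hadm, fun ρ => ?_, mirr_finite, ⟨f p₀, ?_, ?_⟩, Real.log R / 2, ?_, fun n hn hn0 => ?_⟩
  · unfold mirr
    rw [hfibc f hfswap, hfibc (fun i => 1 - conj (f i)) (fun p => by simp [hfswap])]
  · unfold mirr
    have := fib_mem f hp₀
    omega
  · rw [hf]
    exact (pt_re hR1 (hRc p₀ hp₀)).2.2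
  · have := Real.log_pos hR1
    positivity
  · obtain ⟨i, hi⟩ := hS n hn hn0
    have h1 := hC3 n ⟨i.succ, by rw [hβ, Fin.cons_succ]; exact hi⟩
    -- the kernel
    obtain ⟨Z, hZ⟩ : ∃ Z : Finset ((Fin M → Fin (k + 1) × Bool) × (Fin M → Fin (k + 1) × Bool)),
        ∀ p, p ∈ Z ↔ ∃ m : ℤ, D p = m := ⟨univ.filter fun p => ∃ m : ℤ, D p = m, fun p => by simp⟩
    have h2 : kern (phase β (M := M)) n = Z.card + ∑ p ∈ P, Real.cos (2 * Real.pi * (n * D p)) := by
      unfold kern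
      have e1 : (univ : Finset ((Fin M → Fin (k + 1) × Bool) × (Fin M → Fin (k + 1) × Bool))) = Z ∪ P := by
        ext p
        simp only [mem_univ, mem_union, hZ, hP, true_iff]
        exact em _
      have e2 : Disjoint Z P := by
        rw [Finset.disjoint_left]
        intro p h3 h4
        rw [hP] at h4
        rw [hZ] at h3
        exact h4 h3
      rw [e1, sum_union e2]
      congr 1
      · rw [sum_congr rfl (g := fun _ => (1 : ℝ))]
        · simp
        · intro p hp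
          rw [hZ] at hp
          obtain ⟨m, hm⟩ := hp
          rw [hD] at hm
          simp only at hm
          rw [hm, show 2 * Real.pi * ((n : ℝ) * (m : ℝ)) = ((n * m : ℤ) : ℝ) * (2 * Real.pi) by push_cast; ring,
            Real.cos_int_mul_two_pi]
      · refine sum_congr rfl fun p _ => ?_
        rw [hD]
    have h3 : C ≤ Z.card := by
      refine hC2.trans ?_
      exact_mod_cast card_le_card fun p hp => by
        rw [mem_filter] at hp
        rw [hZ, hD]
        exact ⟨0, by simp [hp.2]⟩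
    have h4 : (1 : ℝ) ≤ Z.card := by
      have h5 : 0 < Z.card := by
        have : (0 : ℝ) < Z.card := hC.trans_le h3
        exact_mod_cast this
      exact_mod_cast h5
    have h6 : ∑ p ∈ P, Real.cos (2 * Real.pi * (n * D p)) ≤ -(1 / 2) := by linarith
    have h7 : (1 : ℝ) ≤ P.card := by
      exact_mod_cast Finset.card_pos.mpr ⟨p₀, hp₀⟩
    rw [hli n]
    have h8 : Real.exp (Real.log R / 2 * n) ^ 2 = R ^ n := by
      rw [← Real.exp_nat_mul]
      conv_rhs => rw [← Real.exp_log hR0, ← Real.exp_nat_mul]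
      congr 1
      push_cast
      ring
    have h9 : 0 < (1 / R) ^ n := by positivity
    have h10 : 0 < R ^ n := by positivity
    have h11 : (R ^ n + (1 / R) ^ n) * ∑ p ∈ P, Real.cos (2 * Real.pi * (n * D p)) ≤ R ^ n * (-(1 / 2)) := by
      calc (R ^ n + (1 / R) ^ n) * ∑ p ∈ P, Real.cos (2 * Real.pi * (n * D p))
          ≤ (R ^ n + (1 / R) ^ n) * (-(1 / 2)) := by gcongr
        _ ≤ R ^ n * (-(1 / 2)) := by linarith
    nlinarith [sq_nonneg (Real.exp (Real.log R / 2 * n) - 1)]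

end Pool.Agent.Helper39.LiS
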