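import Pool.Agent.Helper39.LiS.Synd

set_option autoImplicit false

/-!
# Values of polynomials without constant term are sets of Bohr recurrence
(by van der Waerden's theorem and finite differences)
-/

namespace Pool.Agent.Helper39.LiS

open Finset fwdDiff

/-- finite differences of a power -/
lemma diff_pow (j : ℕ) (a b : ℝ) (ha : a ≠ 0) :
    ∑ s ∈ range (j + 1), ((((-1 : ℤ) ^ (j - s) * j.choose s : ℤ)) : ℝ) * (a * s + b) ^ j = a ^ j * j.factorial := by
  have h1 := congrFun (fwdDiff_iter_eq_factorial (R := ℝ) (n := j)) (b / a)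
  rw [fwdDiff_iter_eq_sum_shift] at h1
  have h2 : ((j.factorial : ℝ → ℝ)) (b / a) = (j.factorial : ℝ) := by simp
  rw [h2] at h1
  rw [← h1, mul_sum]
  refine sum_congr rfl fun s _ => ?_
  rw [zsmul_eq_mul, nsmul_eq_mul, mul_one]
  have e : a * s + b = a * (b / a + s) := by field_simp; ring
  rw [e, mul_pow]
  ring

lemma diff_one {j : ℕ} (hj : 1 ≤ j) :
    ∑ s ∈ range (j + 1), ((((-1 : ℤ) ^ (j - s) * j.choose s : ℤ)) : ℝ) = 0 := by
  have h1 := congrFun (fwdDiff_iter_pow_eq_zero_of_lt (R := ℝ) (j := 0) (n := j) (by omega)) 0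
  rw [fwdDiff_iter_eq_sum_shift] at h1
  simpa using h1

lemma diff_abs (j : ℕ) : ∑ s ∈ range (j + 1), |((((-1 : ℤ) ^ (j - s) * j.choose s : ℤ)) : ℝ)| = 2 ^ j := by
  have h1 : ∀ s ∈ range (j + 1), |((((-1 : ℤ) ^ (j - s) * j.choose s : ℤ)) : ℝ)| = (j.choose s : ℝ) := by
    intro s _
    push_cast
    rw [abs_mul, abs_pow, abs_neg, abs_one, one_pow, one_mul, abs_of_nonneg (Nat.cast_nonneg _)]
  rw [sum_congr rfl h1]
  exact_mod_cast Nat.sum_range_choose j

/-- simultaneous recurrence of all powers -/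
lemma powers_recur {ι : Type*} [Finite ι] (α : ι → ℝ) (D : ℕ) {ε : ℝ} (hε : 0 < ε) :
    ∃ a : ℕ, 0 < a ∧ ∀ i : ι, ∀ j : ℕ, 1 ≤ j → j ≤ D → dn (a ^ j * α i) < ε := by
  classical
  obtain ⟨Q, hQ0, hQ⟩ := exists_cells (ε := ε / 2 ^ D) (by positivity)
  have : NeZero Q := ⟨hQ0.ne'⟩
  obtain ⟨a, ha, b, c, h⟩ := Combinatorics.exists_mono_homothetic_copy (range (D + 1))
    (fun n : ℕ => fun (t : ι × Fin D) => cell Q ((n : ℝ) ^ ((t.2 : ℕ) + 1) * (α t.1 / (((t.2 : ℕ) + 1).factorial : ℝ))))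
  refine ⟨a, ha, fun i j hj hjD => ?_⟩
  have ha0 : (a : ℝ) ≠ 0 := by exact_mod_cast ha.ne'
  have hf : (j.factorial : ℝ) ≠ 0 := by exact_mod_cast j.factorial_ne_zero
  obtain ⟨x, hx⟩ : ∃ x : ℕ → ℝ, x = fun s : ℕ => ((a * s + b : ℕ) : ℝ) ^ j * (α i / (j.factorial : ℝ)) := ⟨_, rfl⟩
  have hcell : ∀ s ∈ range (D + 1), dn (x s - x 0) < 1 / Q := by
    intro s hs
    have h1 := h s hs
    have h2 := h 0 (by simp)
    have h3 := congrFun (h1.trans h2.symm) (i, ⟨j - 1, by omega⟩)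
    simp only at h3
    rw [show j - 1 + 1 = j by omega] at h3
    have h4 := dn_of_cell h3
    rw [hx]
    simpa [nsmul_eq_mul] using h4
  have e1 : (a : ℝ) ^ j * α i = ∑ s ∈ range (j + 1), ((((-1 : ℤ) ^ (j - s) * j.choose s : ℤ)) : ℝ) * (x s - x 0) := by
    have h1 := diff_pow j a b ha0
    have h2 : ∑ s ∈ range (j + 1), ((((-1 : ℤ) ^ (j - s) * j.choose s : ℤ)) : ℝ) * (x s - x 0) =
        (∑ s ∈ range (j + 1), ((((-1 : ℤ) ^ (j - s) * j.choose s : ℤ)) : ℝ) * (a * s + b) ^ j) * (α i / j.factorial)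
          - (∑ s ∈ range (j + 1), ((((-1 : ℤ) ^ (j - s) * j.choose s : ℤ)) : ℝ)) * x 0 := by
      rw [sum_mul, sum_mul, ← sum_sub_distrib]
      refine sum_congr rfl fun s _ => ?_
      rw [hx]
      push_cast
      ring
    rw [h2, h1, diff_one hj]
    field_simp
    ring
  rw [e1]
  calc dn (∑ s ∈ range (j + 1), ((((-1 : ℤ) ^ (j - s) * j.choose s : ℤ)) : ℝ) * (x s - x 0))
      ≤ ∑ s ∈ range (j + 1), dn (((((-1 : ℤ) ^ (j - s) * j.choose s : ℤ)) : ℝ) * (x s - x 0)) := dn_sum _ _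
    _ ≤ ∑ s ∈ range (j + 1), |((((-1 : ℤ) ^ (j - s) * j.choose s : ℤ)) : ℝ)| * (1 / Q) := by
        refine sum_le_sum fun s hs => ?_
        refine (dn_intCast_mul _ _).trans ?_
        have := hcell s (by rw [mem_range] at hs ⊢; omega)
        gcongr
    _ = 2 ^ j * (1 / Q) := by rw [← sum_mul, diff_abs]
    _ ≤ 2 ^ D * (1 / Q) := by
        gcongr
        norm_num
    _ < 2 ^ D * (ε / 2 ^ D) := by gcongr
    _ = ε := by field_simp

/-- the same with a lower bound -/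
lemma powers_recur_ge {ι : Type*} [Finite ι] (α : ι → ℝ) (D : ℕ) {ε : ℝ} (hε : 0 < ε) (N : ℕ) :
    ∃ a : ℕ, N ≤ a ∧ 0 < a ∧ ∀ i : ι, ∀ j : ℕ, 1 ≤ j → j ≤ D → dn (a ^ j * α i) < ε := by
  obtain ⟨a, ha, h⟩ := powers_recur (ι := ι ⊕ Fin N)
    (Sum.elim α (fun m : Fin N => 1 / (2 * ((m : ℕ) : ℝ)))) (D + 1) (ε := min ε (1 / 2)) (by positivity)
  refine ⟨a, ?_, ha, fun i j h1 h2 => (h (Sum.inl i) j h1 (by omega)).trans_le (min_le_left _ _)⟩
  by_contra hcon
  push Not at hcon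
  have h1 := h (Sum.inr ⟨a, hcon⟩) 1 le_rfl (by omega)
  simp only [Sum.elim_inr, pow_one] at h1
  have h2 : (a : ℝ) * (1 / (2 * a)) = 1 / 2 := by
    have : (a : ℝ) ≠ 0 := by exact_mod_cast ha.ne'
    field_simp
  rw [h2] at h1
  have h3 := h1.trans_le (min_le_right _ _)
  unfold dn at h3
  rw [round_eq] at h3
  norm_num at h3

/-- values of polynomials without constant term -/
theorem bohr_poly (f : Polynomial ℤ) (h0 : f.coeff 0 = 0) (hf : 0 < f.leadingCoeff) :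
    BohrRecurrent {n : ℕ | ∃ m : ℕ, 0 < m ∧ (n : ℤ) = f.eval (m : ℤ)} := by
  intro k α ε hε
  have hdeg : 0 < f.natDegree := by
    by_contra hcon
    have h1 : f.natDegree = 0 := by omega
    have h2 : f.leadingCoeff = 0 := by
      rw [Polynomial.leadingCoeff, h1, h0]
    omega
  -- positive values
  obtain ⟨N, hN⟩ : ∃ N : ℕ, ∀ m : ℕ, N ≤ m → 0 < f.eval (m : ℤ) := by
    have h1 : Filter.Tendsto (fun x : ℝ => (f.map (Int.castRingHom ℝ)).eval x) Filter.atTop Filter.atTop := by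
      apply Polynomial.tendsto_atTop_of_leadingCoeff_nonneg
      · rw [Polynomial.degree_map_eq_of_injective (RingHom.injective_int _)]
        exact Polynomial.natDegree_pos_iff_degree_pos.mp hdeg
      · rw [Polynomial.leadingCoeff_map_of_injective (RingHom.injective_int _)]
        simpa using hf.le
    have h2 := (h1.comp tendsto_natCast_atTop_atTop).eventually_gt_atTop 0
    obtain ⟨N, hN⟩ := Filter.eventually_atTop.mp h2
    refine ⟨N, fun m hm => ?_⟩
    have h3 := hN m hm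
    simp only [Function.comp_apply] at h3
    have h4 : (f.map (Int.castRingHom ℝ)).eval (m : ℝ) = ((f.eval (m : ℤ) : ℤ) : ℝ) := by
      rw [Polynomial.eval_map, Polynomial.eval₂_at_natCast]
      simp
    rw [h4] at h3
    exact_mod_cast h3
  obtain ⟨A, hA⟩ : ∃ A : ℝ, A = ∑ j ∈ range (f.natDegree + 1), |(f.coeff j : ℝ)| := ⟨_, rfl⟩
  have hA0 : 0 ≤ A := by rw [hA]; positivity
  obtain ⟨a, haN, ha0, h⟩ := powers_recur_ge α f.natDegree (ε := ε / (A + 1)) (by positivity) N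
  have hpos := hN a haN
  refine ⟨(f.eval (a : ℤ)).toNat, ⟨a, ha0, Int.toNat_of_nonneg hpos.le⟩, by omega, fun i => ?_⟩
  have e1 : (((f.eval (a : ℤ)).toNat : ℕ) : ℝ) = ∑ j ∈ range (f.natDegree + 1), (f.coeff j : ℝ) * (a : ℝ) ^ j := by
    have h1 : (((f.eval (a : ℤ)).toNat : ℤ) : ℝ) = ((f.eval (a : ℤ) : ℤ) : ℝ) := by
      rw [Int.toNat_of_nonneg hpos.le]
    have h2 : (((f.eval (a : ℤ)).toNat : ℕ) : ℝ) = (((f.eval (a : ℤ)).toNat : ℤ) : ℝ) := by push_cast; rfl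
    rw [h2, h1, Polynomial.eval_eq_sum_range]
    push_cast
    rfl
  show dn _ < ε
  rw [e1, sum_mul]
  calc dn (∑ j ∈ range (f.natDegree + 1), (f.coeff j : ℝ) * (a : ℝ) ^ j * α i)
      ≤ ∑ j ∈ range (f.natDegree + 1), dn ((f.coeff j : ℝ) * (a : ℝ) ^ j * α i) := dn_sum _ _
    _ ≤ ∑ j ∈ range (f.natDegree + 1), |(f.coeff j : ℝ)| * (ε / (A + 1)) := by
        refine sum_le_sum fun j hj => ?_
        rw [mem_range] at hj
        rcases Nat.eq_zero_or_pos j with h1 | h1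
        · rw [h1, h0]
          simp [dn]
        · rw [mul_assoc]
          refine (dn_intCast_mul _ _).trans ?_
          have := h i j h1 (by omega)
          gcongr
    _ = A * (ε / (A + 1)) := by rw [← sum_mul, hA]
    _ < ε := by
        rw [← mul_div_assoc, div_lt_iff₀ (by linarith)]
        nlinarith

end Pool.Agent.Helper39.LiS
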