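import Pool.Agent.Helper39.LiS.Words

set_option autoImplicit false

/-!
# Positive Li coefficients have bounded gaps
-/

namespace Pool.Agent.Helper39.LiS

open Finset Complex
open scoped ComplexConjugate

variable {μ : ℂ → ℕ}

/-- the angle of a point of the strip is not an integer -/
lemma ang_not_int {ρ : ℂ} (h0 : 0 < ρ.re) (h1 : ρ.re < 1) (m : ℤ) : ang ρ ≠ m := by
  intro h
  have hρ : ρ ≠ 0 := by
    rintro rfl
    simp at h0
  have hpi := Real.pi_pos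
  have h2 : (1 - 1 / ρ).arg = m * (2 * Real.pi) := by
    unfold ang at h
    rw [div_eq_iff (by positivity)] at h
    exact h
  have h3 := Complex.neg_pi_lt_arg (1 - 1 / ρ)
  have h4 := Complex.arg_le_pi (1 - 1 / ρ)
  rw [h2] at h3 h4
  have h5 : m = 0 := by
    have a1 : (-1 : ℝ) < m := by
      by_contra hc
      push Not at hc
      nlinarith
    have a2 : (m : ℝ) < 1 := by
      by_contra hc
      push Not at hc
      nlinarith
    have a3 : -1 < m := by exact_mod_cast a1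
    have a4 : m < 1 := by exact_mod_cast a2
    omega
  rw [h5, Int.cast_zero, zero_mul] at h2
  rw [Complex.arg_eq_zero_iff] at h2
  obtain ⟨h6, h7⟩ := h2
  -- the base is real and nonnegative
  have hn : 0 < normSq ρ := normSq_pos.mpr hρ
  have h8 : (1 - 1 / ρ).im = ρ.im / normSq ρ := by
    rw [sub_im, one_im, one_div, inv_im]
    ring
  have h9 : (1 - 1 / ρ).re = 1 - ρ.re / normSq ρ := by
    rw [sub_re, one_re, one_div, inv_re]
  rw [h8, div_eq_zero_iff] at h7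
  rcases h7 with h7 | h7
  · rw [h9, normSq_apply, h7, mul_zero, add_zero] at h6
    have h10 : ρ.re / (ρ.re * ρ.re) = 1 / ρ.re := by field_simp
    rw [h10] at h6
    have h11 : 1 < 1 / ρ.re := by
      rw [lt_div_iff₀ h0]
      linarith
    linarith
  · exact hn.ne' h7

/-- sums of exponentials are bounded -/
lemma cos_sums {a : ℝ} (ha : ∀ m : ℤ, a ≠ m) :
    ∃ C : ℝ, ∀ N : ℕ, ∑ n ∈ range N, Real.cos (2 * Real.pi * ((n + 1 : ℕ) * a)) ≤ C := by
  have h1 : ex a ≠ 1 := by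
    intro h
    unfold ex at h
    rw [Complex.exp_eq_one_iff] at h
    obtain ⟨m, hm⟩ := h
    apply ha m
    have h2 : (2 * Real.pi * a : ℝ) = m * (2 * Real.pi) := by
      have h3 : ((2 * Real.pi * a : ℝ) : ℂ) * I = ((m * (2 * Real.pi) : ℝ) : ℂ) * I := by
        rw [hm]
        push_cast
        ring
      exact_mod_cast mul_right_cancel₀ I_ne_zero h3
    have := Real.pi_pos
    have h4 : 2 * Real.pi * (a - m) = 0 := by rw [mul_sub, h2]; ring
    rcases mul_eq_zero.mp h4 with h5 | h5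
    · linarith
    · linarith
  have h2 : ex a - 1 ≠ 0 := sub_ne_zero.mpr h1
  refine ⟨2 / ‖ex a - 1‖, fun N => ?_⟩
  have h3 : ∑ n ∈ range N, Real.cos (2 * Real.pi * ((n + 1 : ℕ) * a)) =
      (ex a * ∑ n ∈ range N, ex a ^ n).re := by
    rw [mul_sum, re_sum]
    refine sum_congr rfl fun n _ => ?_
    rw [← pow_succ', ← ex_re]
    congr 1
    unfold ex
    rw [← Complex.exp_nat_mul]
    congr 1
    push_cast
    ring
  rw [h3, geom_sum_eq h1]
  refine (Complex.re_le_norm _).trans ?_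
  rw [norm_mul, norm_ex, one_mul, norm_div]
  gcongr
  calc ‖ex a ^ N - 1‖ ≤ ‖ex a ^ N‖ + ‖(1 : ℂ)‖ := norm_sub_le _ _
    _ = 2 := by rw [norm_pow, norm_ex, one_pow, norm_one]; norm_num

lemma cos_close (x y : ℝ) :
    |Real.cos (2 * Real.pi * (x + y)) - Real.cos (2 * Real.pi * x)| ≤ 2 * Real.pi * dn y := by
  have h1 : Real.cos (2 * Real.pi * (x + y)) = Real.cos (2 * Real.pi * x + 2 * Real.pi * (y - round y)) := by
    rw [show 2 * Real.pi * (x + y) = 2 * Real.pi * x + 2 * Real.pi * (y - round y) + (round y : ℤ) * (2 * Real.pi) by ring,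
      Real.cos_add_int_mul_two_pi]
  rw [h1]
  have h2 := Real.abs_cos_sub_cos_le (2 * Real.pi * x + 2 * Real.pi * (y - round y)) (2 * Real.pi * x)
  refine h2.trans (le_of_eq ?_)
  unfold dn
  rw [add_sub_cancel_left, abs_mul, abs_of_pos (by have := Real.pi_pos; positivity)]

/-- a positive trigonometric polynomial without constant term takes a negative value at some
positive integer -/
lemma exists_neg (J : Finset ℂ) (hJ : J.Nonempty) (m : ℂ → ℕ) (hm : ∀ ρ ∈ J, m ρ ≠ 0) (a : ℂ → ℝ)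
    (ha : ∀ ρ ∈ J, ∀ t : ℤ, a ρ ≠ t) :
    ∃ n : ℕ, 0 < n ∧ ∑ ρ ∈ J, (m ρ : ℝ) * Real.cos (2 * Real.pi * (n * a ρ)) < 0 := by
  by_contra hcon
  push Not at hcon
  obtain ⟨B, hB⟩ := syndetic J a (show (0 : ℝ) < 1 / 6 by norm_num)
  -- bounded sums
  have h1 : ∃ C : ℝ, ∀ N : ℕ, ∑ n ∈ range N, ∑ ρ ∈ J, (m ρ : ℝ) * Real.cos (2 * Real.pi * ((n + 1 : ℕ) * a ρ)) ≤ C := by
    have h2 : ∀ ρ ∈ J, ∃ C : ℝ, ∀ N : ℕ, ∑ n ∈ range N, Real.cos (2 * Real.pi * ((n + 1 : ℕ) * a ρ)) ≤ C :=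
      fun ρ hρ => cos_sums (ha ρ hρ)
    choose! C hC using h2
    refine ⟨∑ ρ ∈ J, (m ρ : ℝ) * C ρ, fun N => ?_⟩
    rw [sum_comm]
    refine sum_le_sum fun ρ hρ => ?_
    rw [← mul_sum]
    have := hC ρ hρ N
    gcongr
  obtain ⟨C, hC⟩ := h1
  -- unbounded sums
  have h2 : ∀ j : ℕ, (j : ℝ) / 2 ≤
      ∑ n ∈ range (j * B), ∑ ρ ∈ J, (m ρ : ℝ) * Real.cos (2 * Real.pi * ((n + 1 : ℕ) * a ρ)) := by
    intro j
    induction j with
    | zero => simp
    | succ j ih =>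
      rw [Nat.succ_mul, ← Finset.sum_range_add_sum_Ico _ (Nat.le_add_right (j * B) B)]
      obtain ⟨b, hb1, hb2, hb3⟩ := hB (j * B)
      have h3 : (1 / 2 : ℝ) ≤ ∑ n ∈ Ico (j * B) (j * B + B), ∑ ρ ∈ J, (m ρ : ℝ) * Real.cos (2 * Real.pi * ((n + 1 : ℕ) * a ρ)) := by
        have h4 : (1 / 2 : ℝ) ≤ ∑ ρ ∈ J, (m ρ : ℝ) * Real.cos (2 * Real.pi * ((b - 1 + 1 : ℕ) * a ρ)) := by
          rw [Nat.sub_add_cancel (by omega)]
          obtain ⟨ρ₁, hρ₁⟩ := hJ
          have hterm : ∀ ρ ∈ J, (1 / 2 : ℝ) ≤ (m ρ : ℝ) * Real.cos (2 * Real.pi * (b * a ρ)) := by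
            intro ρ hρ
            have g3 := cos_ge_half (hb3 ρ hρ).le
            have g4 : (1 : ℝ) ≤ m ρ := by exact_mod_cast Nat.one_le_iff_ne_zero.mpr (hm ρ hρ)
            nlinarith
          exact (hterm ρ₁ hρ₁).trans
            (Finset.single_le_sum (f := fun ρ => (m ρ : ℝ) * Real.cos (2 * Real.pi * (b * a ρ)))
              (fun ρ hρ => by have := hterm ρ hρ; linarith) hρ₁)
        refine h4.trans (Finset.single_le_sum
          (f := fun n : ℕ => ∑ ρ ∈ J, (m ρ : ℝ) * Real.cos (2 * Real.pi * ((n + 1 : ℕ) * a ρ))) ?_ ?_)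
        · intro n _
          exact hcon (n + 1) (Nat.succ_pos n)
        · rw [mem_Ico]
          omega
      push_cast at h3 ih ⊢
      linarith
  obtain ⟨j, hj⟩ := exists_nat_gt (2 * C)
  have h3 := h2 j
  have h4 := hC (j * B)
  linarith

/-- an off-line point makes the coefficients positive on a syndetic set -/
theorem pos_syndetic_off (h : Admissible μ) {ρ₀ : ℂ} (h0 : μ ρ₀ ≠ 0) (hne : ρ₀.re ≠ 1 / 2) :
    ∃ (c : ℝ) (K : ℕ), 0 < c ∧ ∀ N : ℕ, ∃ n : ℕ, N < n ∧ n ≤ N + K ∧ Real.exp (c * n) ≤ li μ n := by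
  obtain ⟨J, r, r', K, hJ, hJ2, hr', hr, hK, has⟩ := asymp h h0 hne
  have hr1 : 1 < r := hr'.trans_lt hr
  obtain ⟨n₀, hn₀, hneg⟩ := exists_neg J hJ μ (fun ρ hρ => (hJ2 ρ hρ).1) ang
    (fun ρ hρ => by
      obtain ⟨h1, h2⟩ := h.strip ρ (hJ2 ρ hρ).1
      exact ang_not_int h1 h2)
  obtain ⟨δ, hδ⟩ : ∃ δ : ℝ, δ = -(∑ ρ ∈ J, (μ ρ : ℝ) * Real.cos (2 * Real.pi * (n₀ * ang ρ))) / 2 := ⟨_, rfl⟩
  have hδ0 : 0 < δ := by rw [hδ]; linarith
  obtain ⟨T, hT⟩ : ∃ T : ℝ, T = ∑ ρ ∈ J, (μ ρ : ℝ) := ⟨_, rfl⟩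
  have hT0 : 0 ≤ T := by rw [hT]; exact sum_nonneg fun _ _ => Nat.cast_nonneg _
  have hpi := Real.pi_pos
  obtain ⟨B, hB⟩ := syndetic J ang (show 0 < δ / (2 * Real.pi * (T + 1)) by positivity)
  have hev := ev_small (K := K) (δ := δ / 2) (by linarith) hr (by positivity)
  have h5 : ∀ᶠ n : ℕ in Filter.atTop, Real.exp (Real.log r / 2 * n) ≤ δ / 2 * r ^ n := by
    have hs : 1 < Real.exp (Real.log r / 2) := by
      rw [Real.one_lt_exp_iff]
      have := Real.log_pos hr1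
      positivity
    have h6 : Filter.Tendsto (fun n : ℕ => Real.exp (Real.log r / 2) ^ n) Filter.atTop Filter.atTop :=
      tendsto_pow_atTop_atTop_of_one_lt hs
    filter_upwards [h6.eventually_ge_atTop (2 / δ)] with n hn
    have e1 : Real.exp (Real.log r / 2 * n) = Real.exp (Real.log r / 2) ^ n := by
      rw [← Real.exp_nat_mul]
      congr 1
      ring
    have e2 : r ^ n = Real.exp (Real.log r / 2) ^ n * Real.exp (Real.log r / 2) ^ n := by
      rw [← mul_pow, ← Real.exp_add, add_halves, Real.exp_log (by linarith)]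
    rw [e1, e2]
    rw [div_le_iff₀ hδ0] at hn
    have h7 : 0 < Real.exp (Real.log r / 2) ^ n := by positivity
    nlinarith
  obtain ⟨N₁, hN₁⟩ := Filter.eventually_atTop.mp (hev.and (h5.and (Filter.eventually_ge_atTop 1)))
  refine ⟨Real.log r / 2, N₁ + B + n₀, by have := Real.log_pos hr1; positivity, fun N => ?_⟩
  obtain ⟨b, hb1, hb2, hb3⟩ := hB (N + N₁)
  refine ⟨n₀ + b, by omega, by omega, ?_⟩
  obtain ⟨g1, g2, g3⟩ := hN₁ (n₀ + b) (by omega)
  have g4 := has (n₀ + b) g3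
  have hrn : 0 < r ^ (n₀ + b) := by positivity
  have g5 : ∑ ρ ∈ J, (μ ρ : ℝ) * ((1 - 1 / ρ) ^ (n₀ + b)).re ≤ -δ * r ^ (n₀ + b) := by
    have e1 : ∑ ρ ∈ J, (μ ρ : ℝ) * ((1 - 1 / ρ) ^ (n₀ + b)).re =
        (∑ ρ ∈ J, (μ ρ : ℝ) * Real.cos (2 * Real.pi * ((n₀ + b : ℕ) * ang ρ))) * r ^ (n₀ + b) := by
      rw [sum_mul]
      refine sum_congr rfl fun ρ hρ => ?_
      rw [pow_re_eq, (hJ2 ρ hρ).2]
      ring
    have e2 : ∑ ρ ∈ J, (μ ρ : ℝ) * Real.cos (2 * Real.pi * ((n₀ + b : ℕ) * ang ρ)) ≤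
        ∑ ρ ∈ J, (μ ρ : ℝ) * (Real.cos (2 * Real.pi * (n₀ * ang ρ)) + δ / (T + 1)) := by
      refine sum_le_sum fun ρ hρ => ?_
      have e3 := (abs_le.mp (cos_close (n₀ * ang ρ) (b * ang ρ))).2
      have e4 : 2 * Real.pi * dn (b * ang ρ) ≤ δ / (T + 1) := by
        calc 2 * Real.pi * dn (b * ang ρ) ≤ 2 * Real.pi * (δ / (2 * Real.pi * (T + 1))) := by
              have := (hb3 ρ hρ).le
              gcongr
          _ = δ / (T + 1) := by field_simp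
      have e5 : ((n₀ + b : ℕ) : ℝ) * ang ρ = n₀ * ang ρ + b * ang ρ := by push_cast; ring
      rw [e5]
      gcongr
      linarith
    have e3 : ∑ ρ ∈ J, (μ ρ : ℝ) * (Real.cos (2 * Real.pi * (n₀ * ang ρ)) + δ / (T + 1)) ≤ -δ := by
      simp_rw [mul_add]
      rw [sum_add_distrib, ← sum_mul, ← hT]
      have e4 : T * (δ / (T + 1)) ≤ δ := by
        rw [← mul_div_assoc, div_le_iff₀ (by positivity)]
        nlinarith
      linarith
    rw [e1]
    have := e2.trans e3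
    gcongr
  have g6 := (abs_le.mp g4).1
  linarith

/-- an off-line point makes the coefficients negative on a syndetic set -/
theorem neg_syndetic_off (h : Admissible μ) {ρ₀ : ℂ} (h0 : μ ρ₀ ≠ 0) (hne : ρ₀.re ≠ 1 / 2) :
    ∃ (c : ℝ) (K : ℕ), 0 < c ∧ ∀ N : ℕ, ∃ n : ℕ, N < n ∧ n ≤ N + K ∧ li μ n ≤ -Real.exp (c * n) := by
  obtain ⟨J, c, N₀, hc, hJ⟩ := neg_on_bohr h h0 hne
  obtain ⟨B, hB⟩ := syndetic J ang (show (0 : ℝ) < 1 / 6 by norm_num)
  refine ⟨c, N₀ + B, hc, fun N => ?_⟩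
  obtain ⟨b, hb1, hb2, hb3⟩ := hB (N + N₀)
  exact ⟨b, by omega, by omega, hJ b (by omega) fun ρ hρ => (hb3 ρ hρ).le⟩

/-- the on-line summands -/
lemma term_on {ρ : ℂ} (h0 : 0 < ρ.re) (h : ρ.re = 1 / 2) (n : ℕ) :
    (1 - (1 - 1 / ρ) ^ n).re = 1 - Real.cos (2 * Real.pi * (n * ang ρ)) := by
  have hρ : ρ ≠ 0 := by
    rintro rfl
    simp at h0
  have h1 : ‖1 - 1 / ρ‖ = 1 := by
    have h2 := normSq_w hρ
    rw [h] at h2
    have h3 : ‖1 - 1 / ρ‖ ^ 2 = 1 := by rw [h2]; norm_num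
    exact (pow_eq_one_iff_of_nonneg (norm_nonneg _) two_ne_zero).mp h3
  rw [sub_re, one_re, pow_re_eq, h1, one_pow, one_mul]

/-- on the line all the coefficients are nonnegative -/
theorem li_nonneg_on (h : Admissible μ) (hon : ∀ ρ, μ ρ ≠ 0 → ρ.re = 1 / 2) (n : ℕ) : 0 ≤ li μ n := by
  unfold li
  refine tsum_nonneg fun ρ => ?_
  by_cases h0 : μ ρ = 0
  · simp [h0]
  rw [term_on (h.strip ρ h0).1 (hon ρ h0)]
  have := Real.cos_le_one (2 * Real.pi * (n * ang ρ))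
  have h2 : 0 ≤ 1 - Real.cos (2 * Real.pi * (n * ang ρ)) := by linarith
  positivity

/-- **positive coefficients have bounded gaps** -/
theorem pos_syndetic (h : Admissible μ) (hμ : ∃ ρ, μ ρ ≠ 0) :
    ∃ K : ℕ, ∀ N : ℕ, ∃ n : ℕ, N < n ∧ n ≤ N + K ∧ 0 < li μ n := by
  by_cases hon : ∀ ρ, μ ρ ≠ 0 → ρ.re = 1 / 2
  · obtain ⟨ρ₀, hρ₀⟩ := hμ
    refine ⟨2, fun N => ?_⟩
    have h1 := h.strip ρ₀ hρ₀
    have h2 : ∀ n : ℕ, Real.cos (2 * Real.pi * (n * ang ρ₀)) < 1 → 0 < li μ n := by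
      intro n hn
      unfold li
      refine (h.summable_li n).tsum_pos (fun ρ => ?_) ρ₀ ?_
      · by_cases h0 : μ ρ = 0
        · simp [h0]
        rw [term_on (h.strip ρ h0).1 (hon ρ h0)]
        have := Real.cos_le_one (2 * Real.pi * (n * ang ρ))
        have h2 : 0 ≤ 1 - Real.cos (2 * Real.pi * (n * ang ρ)) := by linarith
        positivity
      · rw [term_on h1.1 (hon ρ₀ hρ₀)]
        have h3 : 0 < 1 - Real.cos (2 * Real.pi * (n * ang ρ₀)) := by linarith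
        have h4 : (0 : ℝ) < μ ρ₀ := by exact_mod_cast Nat.pos_of_ne_zero hρ₀
        positivity
    by_cases h3 : Real.cos (2 * Real.pi * ((N + 1 : ℕ) * ang ρ₀)) < 1
    · exact ⟨N + 1, by omega, by omega, h2 _ h3⟩
    by_cases h4 : Real.cos (2 * Real.pi * ((N + 2 : ℕ) * ang ρ₀)) < 1
    · exact ⟨N + 2, by omega, by omega, h2 _ h4⟩
    exfalso
    have h5 : Real.cos (2 * Real.pi * ((N + 1 : ℕ) * ang ρ₀)) = 1 :=
      le_antisymm (Real.cos_le_one _) (not_lt.mp h3)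
    have h6 : Real.cos (2 * Real.pi * ((N + 2 : ℕ) * ang ρ₀)) = 1 :=
      le_antisymm (Real.cos_le_one _) (not_lt.mp h4)
    rw [Real.cos_eq_one_iff] at h5 h6
    obtain ⟨a, ha⟩ := h5
    obtain ⟨b, hb⟩ := h6
    apply ang_not_int h1.1 h1.2 (b - a)
    have hpi := Real.pi_pos
    have h7 : 2 * Real.pi * (ang ρ₀ - (b - a)) = 0 := by
      push_cast at ha hb
      linear_combination ha - hb
    push_cast
    rcases mul_eq_zero.mp h7 with h8 | h8
    · linarith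
    · linarith
  · push Not at hon
    obtain ⟨ρ₀, h1, h2⟩ := hon
    obtain ⟨c, K, _, hK⟩ := pos_syndetic_off h h1 h2
    refine ⟨K, fun N => ?_⟩
    obtain ⟨n, hn1, hn2, hn3⟩ := hK N
    exact ⟨n, hn1, hn2, (Real.exp_pos _).trans_le hn3⟩

end Pool.Agent.Helper39.LiS
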