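import Pool.Agent.Helper39.LiS.Synd

set_option autoImplicit false

/-!
# A positive definite kernel which is small off a Bohr neighbourhood
-/

namespace Pool.Agent.Helper39.LiS

open Finset Complex

/-- `e^{2 π i x}` -/
noncomputable def ex (x : ℝ) : ℂ := cexp ((2 * Real.pi * x : ℝ) * I)

lemma ex_add (x y : ℝ) : ex (x + y) = ex x * ex y := by
  unfold ex
  rw [← Complex.exp_add]
  congr 1
  push_cast
  ring

lemma ex_zero : ex 0 = 1 := by simp [ex]

lemma ex_neg (x : ℝ) : ex (-x) = (starRingEnd ℂ) (ex x) := by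
  unfold ex
  rw [← Complex.exp_conj]
  congr 1
  rw [map_mul, Complex.conj_ofReal, Complex.conj_I]
  push_cast
  ring

lemma ex_re (x : ℝ) : (ex x).re = Real.cos (2 * Real.pi * x) := by
  unfold ex
  rw [Complex.exp_ofReal_mul_I_re]

lemma norm_ex (x : ℝ) : ‖ex x‖ = 1 := by
  unfold ex
  exact Complex.norm_exp_ofReal_mul_I _

lemma ex_sum {ι : Type*} (s : Finset ι) (f : ι → ℝ) : ex (∑ i ∈ s, f i) = ∏ i ∈ s, ex (f i) := by
  classical
  induction s using Finset.induction_on with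
  | empty => simp [ex_zero]
  | insert a s ha ih => rw [sum_insert ha, prod_insert ha, ex_add, ih]

lemma norm_one_add_ex {x ε : ℝ} (hε : 0 < ε) (h : ε ≤ dn x) :
    ‖1 + ex x‖ ≤ √(2 + 2 * Real.cos (2 * Real.pi * ε)) := by
  rw [← Real.sqrt_sq (norm_nonneg (1 + ex x))]
  apply Real.sqrt_le_sqrt
  have h1 : ‖1 + ex x‖ ^ 2 = 2 + 2 * Real.cos (2 * Real.pi * x) := by
    have h2 : ‖ex x‖ ^ 2 = 1 := by rw [norm_ex]; norm_num
    rw [← Complex.normSq_eq_norm_sq, Complex.normSq_apply] at h2 ⊢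
    rw [← ex_re]
    simp only [add_re, one_re, add_im, one_im, zero_add]
    linarith
  rw [h1, cos_dn x]
  have h3 : Real.cos (2 * Real.pi * dn x) ≤ Real.cos (2 * Real.pi * ε) := by
    apply Real.cos_le_cos_of_nonneg_of_le_pi
    · have := Real.pi_pos; positivity
    · have := dn_le_half x
      have := Real.pi_pos
      nlinarith
    · have := Real.pi_pos
      gcongr
  linarith

/-- the phases of words -/
noncomputable def phase {k : ℕ} (α : Fin k → ℝ) {M : ℕ} (a : Fin M → Fin k × Bool) : ℝ :=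
  ∑ t, if (a t).2 then α (a t).1 else 0

/-- the kernel -/
noncomputable def kern {W : Type} [Fintype W] (φ : W → ℝ) (x : ℝ) : ℝ :=
  ∑ p : W × W, Real.cos (2 * Real.pi * (x * (φ p.1 - φ p.2)))

lemma kern_eq {W : Type} [Fintype W] (φ : W → ℝ) (x : ℝ) : kern φ x = ‖∑ a, ex (x * φ a)‖ ^ 2 := by
  have h1 : (∑ a, ex (x * φ a)) * (starRingEnd ℂ) (∑ a, ex (x * φ a)) =
      ∑ p : W × W, ex (x * (φ p.1 - φ p.2)) := by
    rw [map_sum, sum_mul_sum, Fintype.sum_prod_type]
    refine sum_congr rfl fun a _ => sum_congr rfl fun b _ => ?_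
    rw [← ex_neg, ← ex_add]
    congr 1
    ring
  have h2 := congrArg Complex.re h1
  rw [Complex.mul_conj, Complex.ofReal_re, Complex.normSq_eq_norm_sq] at h2
  rw [h2, Complex.re_sum]
  refine sum_congr rfl fun p _ => ?_
  rw [ex_re]

lemma sum_words {k : ℕ} (α : Fin k → ℝ) (M : ℕ) (x : ℝ) :
    ∑ a : Fin M → Fin k × Bool, ex (x * phase α a) = (∑ i, (1 + ex (x * α i))) ^ M := by
  have h1 : ∑ i, (1 + ex (x * α i)) = ∑ c : Fin k × Bool, ex (x * (if c.2 then α c.1 else 0)) := by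
    rw [Fintype.sum_prod_type]
    refine sum_congr rfl fun i _ => ?_
    simp [ex_zero, add_comm]
  rw [h1, Fintype.sum_pow]
  refine sum_congr rfl fun a _ => ?_
  unfold phase
  rw [mul_sum, ex_sum]

lemma kern_small {k : ℕ} (α : Fin k → ℝ) (M : ℕ) {ε x : ℝ} (hε : 0 < ε) (h : ∃ i, ε ≤ dn (x * α i)) :
    kern (phase α (M := M)) x ≤
      ((2 * k - (2 - √(2 + 2 * Real.cos (2 * Real.pi * ε)))) ^ 2) ^ M := by
  obtain ⟨i, hi⟩ := h
  rw [kern_eq, sum_words, norm_pow, ← pow_mul, ← pow_mul, mul_comm M 2]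
  apply pow_le_pow_left₀ (norm_nonneg _)
  calc ‖∑ i, (1 + ex (x * α i))‖ ≤ ∑ i, ‖1 + ex (x * α i)‖ := norm_sum_le _ _
    _ ≤ ∑ j, (2 - if j = i then (2 - √(2 + 2 * Real.cos (2 * Real.pi * ε))) else 0) := by
        refine sum_le_sum fun j _ => ?_
        split_ifs with hj
        · rw [hj]
          have := norm_one_add_ex hε hi
          linarith
        · calc ‖1 + ex (x * α j)‖ ≤ ‖(1 : ℂ)‖ + ‖ex (x * α j)‖ := norm_add_le _ _
            _ = 2 - 0 := by rw [norm_one, norm_ex]; norm_num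
    _ = 2 * k - (2 - √(2 + 2 * Real.cos (2 * Real.pi * ε))) := by
        rw [sum_sub_distrib, sum_ite_eq' univ i]
        simp
        ring

/-- the letter counts -/
def cnt {k M : ℕ} (a : Fin M → Fin k × Bool) (i : Fin k) : Fin (M + 1) :=
  ⟨(univ.filter fun t => a t = (i, true)).card, by
    have := card_filter_le (univ : Finset (Fin M)) (fun t => a t = (i, true))
    simp at this
    omega⟩

lemma phase_eq {k M : ℕ} (α : Fin k → ℝ) (a : Fin M → Fin k × Bool) :
    phase α a = ∑ i, ((cnt a i : ℕ) : ℝ) * α i := by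
  unfold phase cnt
  simp only
  have h1 : ∀ i, (((univ.filter fun t => a t = (i, true)).card : ℕ) : ℝ) * α i =
      ∑ t, if a t = (i, true) then α i else 0 := by
    intro i
    rw [← sum_filter, sum_const, nsmul_eq_mul]
  simp_rw [h1]
  rw [sum_comm]
  refine sum_congr rfl fun t _ => ?_
  obtain ⟨j, b⟩ := a t
  cases b
  · simp
  · simp [Prod.ext_iff]

/-- Cauchy-Schwarz -/
lemma count_pairs {W V : Type} [Fintype W] [Fintype V] [DecidableEq V] (f : W → V) :
    (Fintype.card W : ℝ) ^ 2 ≤ Fintype.card V * ((univ.filter fun p : W × W => f p.1 = f p.2).card : ℝ) := by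
  classical
  have h1 : (Fintype.card W : ℝ) = ∑ v : V, ((univ.filter fun a => f a = v).card : ℝ) := by
    have := card_eq_sum_card_fiberwise (s := (univ : Finset W)) (t := (univ : Finset V)) (f := f)
      (fun _ _ => by simp)
    rw [← Finset.card_univ, this]
    push_cast
    rfl
  have h2 : ((univ.filter fun p : W × W => f p.1 = f p.2).card : ℝ) =
      ∑ v : V, ((univ.filter fun a => f a = v).card : ℝ) ^ 2 := by
    have h3 := card_eq_sum_card_fiberwise (s := univ.filter fun p : W × W => f p.1 = f p.2)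
      (t := (univ : Finset V)) (f := fun p => f p.1) (fun _ _ => by simp)
    rw [h3]
    push_cast
    refine sum_congr rfl fun v _ => ?_
    have h4 : (univ.filter fun p : W × W => f p.1 = f p.2).filter (fun p => f p.1 = v) =
        (univ.filter fun a => f a = v) ×ˢ (univ.filter fun a => f a = v) := by
      ext ⟨a, b⟩
      simp only [mem_filter, mem_univ, true_and, mem_product]
      constructor
      · rintro ⟨h5, h6⟩
        exact ⟨h6, h5 ▸ h6⟩
      · rintro ⟨h5, h6⟩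
        exact ⟨h5.trans h6.symm, h5⟩
    rw [h4, card_product]
    push_cast
    ring
  rw [h1, h2]
  have h5 := sq_sum_le_card_mul_sum_sq (s := (univ : Finset V)) (f := fun v => ((univ.filter fun a => f a = v).card : ℝ))
  rwa [Finset.card_univ] at h5

/-- **the kernel** -/
theorem exists_kernel {k : ℕ} (hk : 0 < k) (α : Fin k → ℝ) {ε : ℝ} (hε : 0 < ε) :
    ∃ (M : ℕ) (C : ℝ), 0 < M ∧ 0 < C ∧
      C ≤ ((univ.filter fun p : (Fin M → Fin k × Bool) × (Fin M → Fin k × Bool) =>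
        phase α p.1 = phase α p.2).card : ℝ) ∧
      ∀ n : ℕ, (∃ i, ε ≤ dn (n * α i)) → kern (phase α (M := M)) n ≤ C / 2 := by
  have hk' : (0 : ℝ) < k := by exact_mod_cast hk
  -- wlog ε ≤ 1/2
  obtain ⟨ε', hε', hε'2, hε'3⟩ : ∃ ε' : ℝ, 0 < ε' ∧ ε' ≤ ε ∧ ε' ≤ 1 / 2 :=
    ⟨min ε (1 / 2), by positivity, min_le_left _ _, min_le_right _ _⟩
  obtain ⟨s, hs⟩ : ∃ s : ℝ, s = √(2 + 2 * Real.cos (2 * Real.pi * ε')) := ⟨_, rfl⟩
  have hs0 : 0 ≤ s := by rw [hs]; positivity
  have hs2 : s < 2 := by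
    rw [hs, show (2 : ℝ) = √4 by rw [show (4 : ℝ) = 2 ^ 2 by norm_num]; simp]
    apply Real.sqrt_lt_sqrt
    · have := Real.neg_one_le_cos (2 * Real.pi * ε')
      rw [show √4 = (2 : ℝ) by rw [show (4 : ℝ) = 2 ^ 2 by norm_num]; simp]
      linarith
    · rw [show √4 = (2 : ℝ) by rw [show (4 : ℝ) = 2 ^ 2 by norm_num]; simp]
      have h1 : Real.cos (2 * Real.pi * ε') < 1 := by
        have h2 : Real.cos (2 * Real.pi * ε') < Real.cos 0 := by
          apply Real.cos_lt_cos_of_nonneg_of_le_pi le_rfl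
          · have := Real.pi_pos; nlinarith
          · have := Real.pi_pos; positivity
        rwa [Real.cos_zero] at h2
      linarith
  obtain ⟨θ, hθ⟩ : ∃ θ : ℝ, θ = (2 * k - (2 - s)) / (2 * k) := ⟨_, rfl⟩
  have hk1 : (1 : ℝ) ≤ k := by exact_mod_cast hk
  have hθ0 : 0 ≤ θ := by
    rw [hθ]
    apply div_nonneg <;> linarith
  have hθ1 : θ < 1 := by
    rw [hθ, div_lt_one (by positivity)]
    linarith
  -- choose M
  have h1 : Filter.Tendsto (fun M : ℕ => (M : ℝ) ^ k * (θ ^ 2) ^ M) Filter.atTop (nhds 0) :=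
    tendsto_pow_const_mul_const_pow_of_lt_one k (by positivity) (by nlinarith)
  have h2 : ∀ᶠ M : ℕ in Filter.atTop, (M : ℝ) ^ k * (θ ^ 2) ^ M ≤ 1 / (2 * 2 ^ k) :=
    h1.eventually_le_const (by positivity)
  obtain ⟨M, hM, hM0⟩ := (h2.and (Filter.eventually_gt_atTop 0)).exists
  have hM1 : (1 : ℝ) ≤ M := by exact_mod_cast hM0
  have hM2 : ((M : ℝ) + 1) ^ k * (θ ^ 2) ^ M ≤ 1 / 2 := by
    calc ((M : ℝ) + 1) ^ k * (θ ^ 2) ^ M ≤ (2 * M) ^ k * (θ ^ 2) ^ M := by
          gcongr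
          linarith
      _ = 2 ^ k * ((M : ℝ) ^ k * (θ ^ 2) ^ M) := by rw [mul_pow]; ring
      _ ≤ 2 ^ k * (1 / (2 * 2 ^ k)) := by gcongr
      _ = 1 / 2 := by field_simp
  refine ⟨M, ((2 * k) ^ 2) ^ M / ((M : ℝ) + 1) ^ k, hM0, by positivity, ?_, fun n hn => ?_⟩
  · rw [div_le_iff₀ (by positivity)]
    have h3 := count_pairs (W := Fin M → Fin k × Bool) (V := Fin k → Fin (M + 1)) cnt
    have h4 : (Fintype.card (Fin M → Fin k × Bool) : ℝ) = (2 * k) ^ M := by
      simp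
      ring
    have h5 : (Fintype.card (Fin k → Fin (M + 1)) : ℝ) = ((M : ℝ) + 1) ^ k := by simp
    rw [h4, h5] at h3
    have h6 : ((univ.filter fun p : (Fin M → Fin k × Bool) × (Fin M → Fin k × Bool) =>
        cnt p.1 = cnt p.2).card : ℝ) ≤ ((univ.filter fun p : (Fin M → Fin k × Bool) × (Fin M → Fin k × Bool) =>
        phase α p.1 = phase α p.2).card : ℝ) := by
      exact_mod_cast card_le_card fun p hp => by
        rw [mem_filter] at hp ⊢
        refine ⟨mem_univ _, ?_⟩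
        rw [phase_eq, phase_eq, hp.2]
    have e1 : ((2 * (k : ℝ)) ^ 2) ^ M = ((2 * k) ^ M) ^ 2 := by
      rw [← pow_mul, ← pow_mul, mul_comm 2 M]
    rw [e1]
    refine h3.trans ?_
    rw [mul_comm]
    gcongr
  · have h3 : ∃ i, ε' ≤ dn ((n : ℝ) * α i) := by
      obtain ⟨i, hi⟩ := hn
      exact ⟨i, hε'2.trans hi⟩
    refine (kern_small α M hε' h3).trans ?_
    rw [← hs]
    have e : 2 * (k : ℝ) - (2 - s) = θ * (2 * k) := by rw [hθ]; field_simp
    rw [e, mul_pow, mul_pow, le_div_iff₀ (by norm_num : (0 : ℝ) < 2), le_div_iff₀ (by positivity)]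
    calc (θ ^ 2) ^ M * ((2 * (k : ℝ)) ^ 2) ^ M * 2 * ((M : ℝ) + 1) ^ k
        = (((M : ℝ) + 1) ^ k * (θ ^ 2) ^ M) * (2 * ((2 * (k : ℝ)) ^ 2) ^ M) := by ring
      _ ≤ (1 / 2) * (2 * ((2 * (k : ℝ)) ^ 2) ^ M) := by gcongr
      _ = ((2 * (k : ℝ)) ^ 2) ^ M := by ring

/-- every generator is a difference of phases -/
lemma exists_diff {k : ℕ} (α : Fin k → ℝ) {M : ℕ} (hM : 0 < M) (i : Fin k) :
    ∃ a b : Fin M → Fin k × Bool, phase α a - phase α b = α i := by
  refine ⟨fun t => if t = ⟨0, hM⟩ then (i, true) else (i, false), fun _ => (i, false), ?_⟩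
  unfold phase
  have h1 : ∀ t : Fin M, (if (if t = ⟨0, hM⟩ then (i, true) else (i, false) : Fin k × Bool).2 = true
      then α (if t = ⟨0, hM⟩ then (i, true) else (i, false) : Fin k × Bool).1 else 0) =
      if t = ⟨0, hM⟩ then α i else 0 := by
    intro t
    by_cases h : t = ⟨0, hM⟩ <;> simp [h]
  rw [sum_congr rfl fun t _ => h1 t, sum_ite_eq']
  simp

end Pool.Agent.Helper39.LiS
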