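import Pool.Agent.Helper39.LiS.Vino2
import Pool.Agent.Helper39.LiS.Words

set_option autoImplicit false

/-!
# Shifted primes are a set of Bohr recurrence
-/

namespace Pool.Agent.Helper39.LiS

open Finset
open Pool.Agent.H807R2.Dav
open Pool.Agent.H373R2.T7

lemma ee_one {t : ℝ} (h : ee t = 1) : ∃ m : ℤ, t = m := by
  unfold ee at h
  rw [Complex.exp_eq_one_iff] at h
  obtain ⟨m, hm⟩ := h
  refine ⟨m, ?_⟩
  have h2 : (2 * Real.pi * Complex.I : ℂ) ≠ 0 := Complex.two_pi_I_ne_zero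
  have h3 : (2 * Real.pi * Complex.I : ℂ) * (t : ℂ) = (2 * Real.pi * Complex.I : ℂ) * ((m : ℝ) : ℂ) := by
    rw [hm]
    push_cast
    ring
  exact_mod_cast mul_left_cancel₀ h2 h3

lemma ee_re (t : ℝ) : (ee t).re = Real.cos (2 * Real.pi * t) := by
  rw [ee_eq, Complex.exp_ofReal_mul_I_re]

/-- orthogonality -/
lemma orth {Q : ℕ} (hQ : 1 ≤ Q) (n c : ℕ) :
    ∑ j ∈ range Q, ee (((n : ℝ) - c) * ((j : ℝ) / Q)) = if n ≡ c [MOD Q] then (Q : ℂ) else 0 := by
  have hQ0 : (0 : ℝ) < Q := by exact_mod_cast hQ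
  have h1 : ∀ j ∈ range Q, ee (((n : ℝ) - c) * ((j : ℝ) / Q)) = ee (((n : ℝ) - c) / Q) ^ j := by
    intro j _
    rw [← ee_pow]
    congr 1
    ring
  rw [sum_congr rfl h1]
  split_ifs with h
  · have h2 : ee (((n : ℝ) - c) / Q) = 1 := by
      have h3 := (Nat.modEq_iff_dvd.mp h.symm)
      obtain ⟨m, hm⟩ := h3
      have h4 : ((n : ℝ) - c) / Q = m := by
        rw [div_eq_iff hQ0.ne']
        have : ((n : ℤ) - (c : ℤ) : ℤ) = (Q : ℤ) * m := hm
        have h5 : ((n : ℝ) - c) = Q * m := by exact_mod_cast this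
        rw [h5]
        ring
      rw [h4, ee_int]
    simp [h2]
  · have h2 : ee (((n : ℝ) - c) / Q) ≠ 1 := by
      intro h3
      obtain ⟨m, hm⟩ := ee_one h3
      apply h
      symm
      rw [Nat.modEq_iff_dvd]
      refine ⟨m, ?_⟩
      rw [div_eq_iff hQ0.ne'] at hm
      have h5 : ((n : ℝ) - c) = Q * m := by rw [hm]; ring
      exact_mod_cast h5
    rw [geom_sum_eq h2, ← ee_pow]
    have h3 : (Q : ℝ) * (((n : ℝ) - c) / Q) = (((n : ℤ) - (c : ℤ) : ℤ) : ℝ) := by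
      push_cast
      field_simp
    rw [h3, ee_int, sub_self, zero_div]

/-- sums over progressions -/
lemma ap_sum {θ : ℝ} (hθ : Irrational θ) {Q : ℕ} (hQ : 1 ≤ Q) (c : ℕ) (s : ℤ) {δ : ℝ} (hδ : 0 < δ) :
    ∃ N0 : ℕ, ∀ N : ℕ, N0 ≤ N → |∑ n ∈ (Icc 1 N).filter (fun n => n ≡ c [MOD Q]),
      ArithmeticFunction.vonMangoldt n * Real.cos (2 * Real.pi * (((n : ℝ) - s) * θ))| ≤ δ * N := by
  have hQ0 : (0 : ℝ) < Q := by exact_mod_cast hQ
  have hirr : ∀ j : ℕ, Irrational (θ + (j : ℝ) / Q) := by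
    intro j
    have := hθ.add_ratCast ((j : ℚ) / Q)
    push_cast at this
    exact this
  choose N1 hN1 using fun j => vino (hirr j) hδ
  refine ⟨(range Q).sup N1, fun N hN => ?_⟩
  have h1 : ∑ n ∈ (Icc 1 N).filter (fun n => n ≡ c [MOD Q]),
      ((ArithmeticFunction.vonMangoldt n : ℝ) : ℂ) * ee (((n : ℝ) - s) * θ) =
      (1 / (Q : ℂ)) * ∑ j ∈ range Q, ee (-(s * θ) - c * ((j : ℝ) / Q)) *
        ∑ n ∈ Icc 1 N, ((ArithmeticFunction.vonMangoldt n : ℝ) : ℂ) * ee (n * (θ + (j : ℝ) / Q)) := by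
    have e : ∑ j ∈ range Q, ee (-(s * θ) - c * ((j : ℝ) / Q)) *
        ∑ n ∈ Icc 1 N, ((ArithmeticFunction.vonMangoldt n : ℝ) : ℂ) * ee (n * (θ + (j : ℝ) / Q)) =
        ∑ n ∈ Icc 1 N, ((ArithmeticFunction.vonMangoldt n : ℝ) : ℂ) * ee (((n : ℝ) - s) * θ) *
          (if n ≡ c [MOD Q] then (Q : ℂ) else 0) := by
      simp_rw [mul_sum]
      rw [sum_comm]
      refine sum_congr rfl fun n _ => ?_
      rw [← orth hQ n c, mul_sum]
      refine sum_congr rfl fun j _ => ?_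
      have e2 : ee (-(s * θ) - c * ((j : ℝ) / Q)) * ee (n * (θ + (j : ℝ) / Q)) =
          ee (((n : ℝ) - s) * θ) * ee (((n : ℝ) - c) * ((j : ℝ) / Q)) := by
        rw [← ee_add, ← ee_add]
        congr 1
        ring
      linear_combination ((ArithmeticFunction.vonMangoldt n : ℝ) : ℂ) * e2
    rw [e, sum_filter, mul_sum]
    refine sum_congr rfl fun n _ => ?_
    have hQc : (Q : ℂ) ≠ 0 := by exact_mod_cast hQ0.ne'
    split_ifs
    · field_simp
    · simp
  have h2 : ∑ n ∈ (Icc 1 N).filter (fun n => n ≡ c [MOD Q]),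
      ArithmeticFunction.vonMangoldt n * Real.cos (2 * Real.pi * (((n : ℝ) - s) * θ)) =
      (∑ n ∈ (Icc 1 N).filter (fun n => n ≡ c [MOD Q]),
      ((ArithmeticFunction.vonMangoldt n : ℝ) : ℂ) * ee (((n : ℝ) - s) * θ)).re := by
    rw [Complex.re_sum]
    refine sum_congr rfl fun n _ => ?_
    rw [Complex.re_ofReal_mul, ee_re]
  rw [h2]
  refine (Complex.abs_re_le_norm _).trans ?_
  rw [h1, norm_mul]
  have h3 : ‖(1 / (Q : ℂ))‖ = 1 / Q := by
    rw [norm_div, norm_one, Complex.norm_natCast]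
  rw [h3]
  have h4 : ‖∑ j ∈ range Q, ee (-(s * θ) - c * ((j : ℝ) / Q)) *
        ∑ n ∈ Icc 1 N, ((ArithmeticFunction.vonMangoldt n : ℝ) : ℂ) * ee (n * (θ + (j : ℝ) / Q))‖ ≤
        Q * (δ * N) := by
    refine (norm_sum_le _ _).trans ?_
    have h5 : ∀ j ∈ range Q, ‖ee (-(s * θ) - c * ((j : ℝ) / Q)) *
        ∑ n ∈ Icc 1 N, ((ArithmeticFunction.vonMangoldt n : ℝ) : ℂ) * ee (n * (θ + (j : ℝ) / Q))‖ ≤ δ * N := by
      intro j hj
      rw [norm_mul, norm_ee, one_mul]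
      exact hN1 j N ((Finset.le_sup (f := N1) hj).trans hN)
    refine (sum_le_sum h5).trans ?_
    rw [sum_const, card_range, nsmul_eq_mul]
  calc 1 / (Q : ℝ) * ‖∑ j ∈ range Q, ee (-(s * θ) - c * ((j : ℝ) / Q)) *
        ∑ n ∈ Icc 1 N, ((ArithmeticFunction.vonMangoldt n : ℝ) : ℂ) * ee (n * (θ + (j : ℝ) / Q))‖
      ≤ 1 / (Q : ℝ) * (Q * (δ * N)) := by gcongr
    _ = δ * N := by field_simp

/-- the density of the primes in a progression -/
lemma ap_lower {Q : ℕ} (hQ : 1 ≤ Q) {c : ℕ} (hc : c.Coprime Q) :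
    ∃ N0 : ℕ, ∀ N : ℕ, N0 ≤ N → (N : ℝ) / (2 * Q) ≤
      ∑ n ∈ (Icc 1 N).filter (fun n => n ≡ c [MOD Q]), ArithmeticFunction.vonMangoldt n := by
  have hQ0 : (0 : ℝ) < Q := by exact_mod_cast hQ
  obtain ⟨N1, h1⟩ := lam_ap 1 1
  obtain ⟨N2, h2⟩ := ev_L' (2 * Q)
  refine ⟨N1 + N2 + 1, fun N hN => ?_⟩
  have a2 := h2 N (by omega)
  have a1 := h1 N (by omega) Q hQ (by rw [pow_one]; linarith) c N le_rfl
  rw [if_pos hc, pow_one] at a1
  have h3 := (abs_le.mp a1).1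
  have h4 : (N : ℝ) / Real.log N ≤ N / (2 * Q) := by gcongr
  have h5 : (N : ℝ) / Q ≤ N / Nat.totient Q := by
    have h6 : (Nat.totient Q : ℝ) ≤ Q := by exact_mod_cast Nat.totient_le Q
    have h7 : 0 < Nat.totient Q := Nat.totient_pos.mpr (by omega)
    gcongr
  have h8 : (N : ℝ) / Q = N / (2 * Q) + N / (2 * Q) := by field_simp; ring
  linarith

/-- the prime powers are negligible -/
lemma nonprime_small {δ : ℝ} (hδ : 0 < δ) : ∃ N0 : ℕ, ∀ N : ℕ, N0 ≤ N →
    ∑ n ∈ (Icc 1 N).filter (fun n => ¬ n.Prime), ArithmeticFunction.vonMangoldt n ≤ δ * N := by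
  obtain ⟨N1, h1⟩ := ev_log' 1 (2 / δ)
  refine ⟨N1 + 1, fun N hN => ?_⟩
  have a1 := h1 N (by omega)
  have hN1 : (1 : ℝ) ≤ N := by exact_mod_cast (by omega : 1 ≤ N)
  have h2 := Chebyshev.psi_sub_theta_eq_sum_not_prime (N : ℝ)
  have h3 := Chebyshev.psi_sub_theta_le hN1
  rw [h2, Nat.floor_natCast] at h3
  have e1 : Icc 1 N = Ioc 0 N := by ext; simp [Nat.succ_le_iff]
  rw [e1]
  refine h3.trans ?_
  rw [pow_one, div_mul_eq_mul_div, div_le_iff₀ hδ] at a1
  have h4 : √(N : ℝ) * √(N : ℝ) = N := Real.mul_self_sqrt (by linarith)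
  have h5 := Real.sqrt_nonneg (N : ℝ)
  nlinarith

lemma exists_den {W : Type} [Fintype W] (D : W → ℝ) :
    ∃ Q : ℕ, 1 ≤ Q ∧ ∀ p, ¬ Irrational (D p) → ∃ m : ℤ, (Q : ℝ) * D p = m := by
  classical
  have h1 : ∀ p : W, ∃ q : ℕ, 1 ≤ q ∧ (¬ Irrational (D p) → ∃ m : ℤ, (q : ℝ) * D p = m) := by
    intro p
    by_cases h : Irrational (D p)
    · exact ⟨1, le_rfl, fun h2 => absurd h h2⟩
    · unfold Irrational at h
      push Not at h
      obtain ⟨r, hr⟩ := h
      refine ⟨r.den, r.den_pos, fun _ => ⟨r.num, ?_⟩⟩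
      rw [← hr]
      exact_mod_cast Rat.den_mul_eq_num r
  choose q hq1 hq2 using h1
  refine ⟨∏ p, q p, Finset.one_le_prod' fun p _ => hq1 p, fun p hp => ?_⟩
  obtain ⟨m, hm⟩ := hq2 p hp
  refine ⟨(∏ t ∈ univ.erase p, (q t : ℤ)) * m, ?_⟩
  rw [← Finset.mul_prod_erase univ q (mem_univ p)]
  push_cast
  rw [← hm]
  ring

/-- **shifted primes are a set of Bohr recurrence** -/
theorem bohr_primes (s : ℤ) (hs : s = 1 ∨ s = -1) :
    BohrRecurrent {n | ∃ p : ℕ, p.Prime ∧ (n : ℤ) = p - s} := by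
  classical
  intro k α ε hε
  by_contra hcon
  push Not at hcon
  have hcon' : ∀ p : ℕ, p.Prime → ∃ i, ε ≤ dn (((p : ℝ) - s) * α i) := by
    intro p hp
    have hp2 : (2 : ℤ) ≤ p := by exact_mod_cast hp.two_le
    have h0 : 0 < (p : ℤ) - s := by rcases hs with h | h <;> omega
    obtain ⟨n, hn⟩ := Int.eq_ofNat_of_zero_le h0.le
    have hn0 : 0 < n := by omega
    obtain ⟨i, hi⟩ := hcon n ⟨p, hp, hn.symm⟩ hn0
    refine ⟨i, ?_⟩
    have e : ((p : ℝ) - s) = n := by exact_mod_cast hn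
    rw [e]
    exact hi
  -- at least one frequency
  have hk : 0 < k := by
    obtain ⟨i, _⟩ := hcon' 2 Nat.prime_two
    exact i.pos
  obtain ⟨M, C, hM, hC, hC2, hC3⟩ := exists_kernel hk α hε
  obtain ⟨D, hD⟩ : ∃ D : (Fin M → Fin k × Bool) × (Fin M → Fin k × Bool) → ℝ,
      D = fun p => phase α p.1 - phase α p.2 := ⟨_, rfl⟩
  obtain ⟨Q, hQ, hQD⟩ := exists_den D
  have hQ0 : (0 : ℝ) < Q := by exact_mod_cast hQ
  -- the residue class
  obtain ⟨c, hc1, hc2⟩ : ∃ c : ℕ, c.Coprime Q ∧ (Q : ℤ) ∣ (c : ℤ) - s := by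
    rcases hs with h | h
    · exact ⟨1, Nat.coprime_one_left Q, by rw [h]; simp⟩
    · obtain ⟨m, rfl⟩ : ∃ m, Q = m + 1 := ⟨Q - 1, by omega⟩
      refine ⟨m, by simp, ?_⟩
      rw [h]
      push_cast
      simp
  obtain ⟨V, hV⟩ : ∃ V : ℝ, V = (Fintype.card ((Fin M → Fin k × Bool) × (Fin M → Fin k × Bool)) : ℝ) := ⟨_, rfl⟩
  have hV0 : 0 ≤ V := by rw [hV]; exact Nat.cast_nonneg _
  obtain ⟨δ, hδ⟩ : ∃ δ : ℝ, δ = C / (8 * Q * (V + 1)) := ⟨_, rfl⟩
  have hδ0 : 0 < δ := by rw [hδ]; positivity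
  -- the estimates
  obtain ⟨N1, h1⟩ := ap_lower hQ hc1
  obtain ⟨N2, h2⟩ := nonprime_small hδ0
  have h3 : ∀ p, ∃ N0 : ℕ, Irrational (D p) → ∀ N : ℕ, N0 ≤ N →
      |∑ n ∈ (Icc 1 N).filter (fun n => n ≡ c [MOD Q]),
        ArithmeticFunction.vonMangoldt n * Real.cos (2 * Real.pi * (((n : ℝ) - s) * D p))| ≤ δ * N := by
    intro p
    by_cases h : Irrational (D p)
    · obtain ⟨N0, h0⟩ := ap_sum h hQ c s hδ0
      exact ⟨N0, fun _ => h0⟩
    · exact ⟨0, fun h' => absurd h' h⟩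
  choose N3 h3 using h3
  obtain ⟨N, hN⟩ : ∃ N : ℕ, N = N1 + N2 + univ.sup N3 + 1 := ⟨_, rfl⟩
  have a1 := h1 N (by omega)
  have a2 := h2 N (by omega)
  have a3 : ∀ p, Irrational (D p) → |∑ n ∈ (Icc 1 N).filter (fun n => n ≡ c [MOD Q]),
        ArithmeticFunction.vonMangoldt n * Real.cos (2 * Real.pi * (((n : ℝ) - s) * D p))| ≤ δ * N := by
    intro p hp
    refine h3 p hp N ?_
    have := Finset.le_sup (f := N3) (mem_univ p)
    omega
  have hN0 : (0 : ℝ) < N := by exact_mod_cast (by omega : 0 < N)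
  obtain ⟨A, hA⟩ : ∃ A : Finset ℕ, A = (Icc 1 N).filter (fun n => n ≡ c [MOD Q]) := ⟨_, rfl⟩
  rw [← hA] at a1
  obtain ⟨ψ, hψ⟩ : ∃ ψ : ℝ, ψ = ∑ n ∈ A, ArithmeticFunction.vonMangoldt n := ⟨_, rfl⟩
  rw [← hψ] at a1
  have hψ0 : 0 ≤ ψ := by rw [hψ]; exact sum_nonneg fun _ _ => ArithmeticFunction.vonMangoldt_nonneg
  -- lower bound
  have hlow : C * ψ - V * (δ * N) ≤ ∑ n ∈ A, ArithmeticFunction.vonMangoldt n * kern (phase α (M := M)) ((n : ℝ) - s) := by
    have e1 : ∑ n ∈ A, ArithmeticFunction.vonMangoldt n * kern (phase α (M := M)) ((n : ℝ) - s) =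
        ∑ p, ∑ n ∈ A, ArithmeticFunction.vonMangoldt n * Real.cos (2 * Real.pi * (((n : ℝ) - s) * D p)) := by
      unfold kern
      simp_rw [mul_sum]
      rw [sum_comm, hD]
    have e2 : ∀ p, (if phase α p.1 = phase α p.2 then ψ else 0) - δ * N ≤
        ∑ n ∈ A, ArithmeticFunction.vonMangoldt n * Real.cos (2 * Real.pi * (((n : ℝ) - s) * D p)) := by
      intro p
      by_cases hp : Irrational (D p)
      · have h5 : phase α p.1 ≠ phase α p.2 := by
          intro h6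
          rw [hD] at hp
          simp only [h6, sub_self] at hp
          exact not_irrational_zero hp
        rw [if_neg h5]
        have h6 := (abs_le.mp (a3 p hp)).1
        rw [← hA] at h6
        linarith
      · obtain ⟨m, hm⟩ := hQD p hp
        have h5 : ∑ n ∈ A, ArithmeticFunction.vonMangoldt n * Real.cos (2 * Real.pi * (((n : ℝ) - s) * D p)) = ψ := by
          rw [hψ]
          refine sum_congr rfl fun n hn => ?_
          rw [hA, mem_filter] at hn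
          have h6 : (Q : ℤ) ∣ (n : ℤ) - s := by
            have h7 := Nat.modEq_iff_dvd.mp hn.2.symm
            have : (n : ℤ) - s = ((n : ℤ) - c) + ((c : ℤ) - s) := by ring
            rw [this]
            exact dvd_add h7 hc2
          obtain ⟨t, ht⟩ := h6
          have h7 : ((n : ℝ) - s) = Q * t := by exact_mod_cast ht
          have h8 : 2 * Real.pi * (((n : ℝ) - s) * D p) = ((t * m : ℤ) : ℝ) * (2 * Real.pi) := by
            rw [h7]
            push_cast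
            rw [← hm]
            ring
          rw [h8, Real.cos_int_mul_two_pi, mul_one]
        rw [h5]
        have : 0 ≤ δ * N := by positivity
        split_ifs <;> linarith
    have e3 := sum_le_sum fun p (_ : p ∈ (univ : Finset ((Fin M → Fin k × Bool) × (Fin M → Fin k × Bool)))) => e2 p
    rw [e1]
    refine le_trans ?_ e3
    rw [sum_sub_distrib, sum_const, ← sum_filter, sum_const, nsmul_eq_mul, nsmul_eq_mul, card_univ, ← hV]
    have : C * ψ ≤ ((univ.filter fun p : (Fin M → Fin k × Bool) × (Fin M → Fin k × Bool) =>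
        phase α p.1 = phase α p.2).card : ℝ) * ψ := by gcongr
    linarith
  -- upper bound
  have hup : ∑ n ∈ A, ArithmeticFunction.vonMangoldt n * kern (phase α (M := M)) ((n : ℝ) - s) ≤
      C / 2 * ψ + V * (δ * N) := by
    have hkV : ∀ x : ℝ, kern (phase α (M := M)) x ≤ V := by
      intro x
      unfold kern
      refine (sum_le_sum fun p _ => Real.cos_le_one _).trans ?_
      rw [sum_const, nsmul_eq_mul, mul_one, card_univ, hV]
    have e1 : ∀ n ∈ A, ArithmeticFunction.vonMangoldt n * kern (phase α (M := M)) ((n : ℝ) - s) ≤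
        C / 2 * ArithmeticFunction.vonMangoldt n + V * (if ¬ n.Prime then ArithmeticFunction.vonMangoldt n else 0) := by
      intro n _
      have h6 : 0 ≤ ArithmeticFunction.vonMangoldt n := ArithmeticFunction.vonMangoldt_nonneg
      by_cases hp : n.Prime
      · rw [if_neg (not_not.mpr hp), mul_zero, add_zero, mul_comm]
        gcongr
        have hp2 : (2 : ℤ) ≤ n := by exact_mod_cast hp.two_le
        have h0 : 0 < (n : ℤ) - s := by rcases hs with h | h <;> omega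
        obtain ⟨m, hm⟩ := Int.eq_ofNat_of_zero_le h0.le
        have e : ((n : ℝ) - s) = m := by exact_mod_cast hm
        obtain ⟨i, hi⟩ := hcon' n hp
        rw [e] at hi ⊢
        exact hC3 m ⟨i, hi⟩
      · rw [if_pos hp]
        have := hkV ((n : ℝ) - s)
        nlinarith
    refine (sum_le_sum e1).trans ?_
    rw [sum_add_distrib, ← mul_sum, ← mul_sum, ← hψ]
    gcongr
    refine le_trans ?_ a2
    rw [sum_filter]
    refine sum_le_sum_of_subset_of_nonneg ?_ fun n _ _ => ?_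
    · rw [hA]
      exact filter_subset _ _
    · split_ifs
      · exact le_rfl
      · exact ArithmeticFunction.vonMangoldt_nonneg
  have h6 : C / 2 * ψ ≤ 2 * V * (δ * N) := by linarith
  have h7 : C / 2 * ((N : ℝ) / (2 * Q)) ≤ 2 * V * (δ * N) := le_trans (by gcongr) h6
  have h8 : 2 * V * (δ * N) < C / 2 * ((N : ℝ) / (2 * Q)) := by
    rw [hδ]
    have e : C / 2 * ((N : ℝ) / (2 * Q)) = 2 * (V + 1) * (C / (8 * Q * (V + 1)) * N) := by
      field_simp
      ring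
    rw [e]
    have : 0 < C / (8 * Q * (V + 1)) * N := by positivity
    nlinarith
  linarith

end Pool.Agent.Helper39.LiS
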