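import Pool.Agent.Helper39.LiS.Basic

set_option autoImplicit false

/-!
# Signs of the Li coefficients on Bohr sets
-/

namespace Pool.Agent.Helper39.LiS

open Complex Filter Topology
open scoped ComplexConjugate

variable {μ : ℂ → ℕ}

/-- the angle of a base, divided by `2 π` -/
noncomputable def ang (ρ : ℂ) : ℝ := (1 - 1 / ρ).arg / (2 * Real.pi)

lemma pow_re_eq (ρ : ℂ) (n : ℕ) :
    ((1 - 1 / ρ) ^ n).re = ‖1 - 1 / ρ‖ ^ n * Real.cos (2 * Real.pi * (n * ang ρ)) := by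
  have h1 : (1 - 1 / ρ) ^ n = ((‖1 - 1 / ρ‖ ^ n : ℝ) : ℂ) * cexp (((2 * Real.pi * (n * ang ρ) : ℝ) : ℂ) * I) := by
    conv_lhs => rw [← Complex.norm_mul_exp_arg_mul_I (1 - 1 / ρ)]
    rw [mul_pow, ← Complex.exp_nat_mul]
    have hpi : (Real.pi : ℂ) ≠ 0 := by exact_mod_cast Real.pi_ne_zero
    congr 1
    · push_cast; rfl
    · congr 1
      unfold ang
      push_cast
      field_simp
  rw [h1, Complex.re_ofReal_mul, Complex.exp_ofReal_mul_I_re]

/-- the distance to the nearest integer -/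
noncomputable def dn (x : ℝ) : ℝ := |x - round x|

lemma cos_dn (x : ℝ) : Real.cos (2 * Real.pi * x) = Real.cos (2 * Real.pi * dn x) := by
  unfold dn
  rcases abs_choice (x - round x) with h | h
  · rw [h]
    rw [show 2 * Real.pi * (x - round x) = 2 * Real.pi * x - (round x : ℤ) * (2 * Real.pi) by ring,
      Real.cos_sub_int_mul_two_pi]
  · rw [h]
    rw [show 2 * Real.pi * -(x - round x) = -(2 * Real.pi * x - (round x : ℤ) * (2 * Real.pi)) by ring,
      Real.cos_neg, Real.cos_sub_int_mul_two_pi]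

lemma dn_nonneg (x : ℝ) : 0 ≤ dn x := abs_nonneg _

lemma dn_le_half (x : ℝ) : dn x ≤ 1 / 2 := abs_sub_round x

lemma dn_le (x : ℝ) (m : ℤ) : dn x ≤ |x - m| := round_le x m

lemma dn_le_abs (x : ℝ) : dn x ≤ |x| := by simpa using dn_le x 0

lemma dn_add (x y : ℝ) : dn (x + y) ≤ dn x + dn y := by
  refine (dn_le (x + y) (round x + round y)).trans ?_
  unfold dn
  push_cast
  rw [show x + y - (round x + round y) = (x - round x) + (y - round y) by ring]
  exact abs_add_le _ _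

lemma dn_neg (x : ℝ) : dn (-x) = dn x := by
  apply le_antisymm
  · refine (dn_le (-x) (-round x)).trans (le_of_eq ?_)
    unfold dn
    push_cast
    rw [show -x - -(round x : ℝ) = -(x - round x) by ring, abs_neg]
  · refine (dn_le x (-round (-x))).trans (le_of_eq ?_)
    unfold dn
    push_cast
    rw [show x - -(round (-x) : ℝ) = -(-x - round (-x)) by ring, abs_neg]

lemma dn_sub (x y : ℝ) : dn (x - y) ≤ dn x + dn y := by
  rw [sub_eq_add_neg]
  exact (dn_add x (-y)).trans (by rw [dn_neg])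

lemma dn_sum {ι : Type*} (s : Finset ι) (f : ι → ℝ) : dn (∑ i ∈ s, f i) ≤ ∑ i ∈ s, dn (f i) := by
  classical
  induction s using Finset.induction_on with
  | empty => simp [dn]
  | insert a s ha ih =>
    rw [Finset.sum_insert ha, Finset.sum_insert ha]
    exact (dn_add _ _).trans (by linarith)

lemma dn_natCast_mul (m : ℕ) (x : ℝ) : dn (m * x) ≤ m * dn x := by
  refine (dn_le (m * x) (m * round x)).trans (le_of_eq ?_)
  unfold dn
  push_cast
  rw [← mul_sub, abs_mul, abs_of_nonneg (Nat.cast_nonneg m)]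

lemma dn_intCast_mul (m : ℤ) (x : ℝ) : dn (m * x) ≤ |(m : ℝ)| * dn x := by
  refine (dn_le (m * x) (m * round x)).trans (le_of_eq ?_)
  unfold dn
  push_cast
  rw [← mul_sub, abs_mul]

/-- sets which meet all the Bohr neighbourhoods of zero -/
def BohrRecurrent (S : Set ℕ) : Prop :=
  ∀ (k : ℕ) (α : Fin k → ℝ) (ε : ℝ), 0 < ε → ∃ n ∈ S, 0 < n ∧ ∀ i, |n * α i - round (n * α i)| < ε

/-- Bohr neighbourhoods indexed by finite sets, with large elements -/
lemma BohrRecurrent.exists_ge {S : Set ℕ} (hS : BohrRecurrent S) {ι : Type*} (J : Finset ι) (α : ι → ℝ)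
    {ε : ℝ} (hε : 0 < ε) (N : ℕ) : ∃ n ∈ S, N ≤ n ∧ 0 < n ∧ ∀ i ∈ J, dn (n * α i) < ε := by
  classical
  obtain ⟨e⟩ : Nonempty (Fin (Fintype.card (J ⊕ Fin N)) ≃ (J ⊕ Fin N)) :=
    ⟨(Fintype.equivFin _).symm⟩
  obtain ⟨n, hn, hn0, h⟩ := hS (Fintype.card (J ⊕ Fin N))
    (fun t => Sum.elim (fun i : J => α i) (fun m : Fin N => 1 / (2 * ((m : ℕ) : ℝ))) (e t))
    (min ε (1 / 2)) (by positivity)
  refine ⟨n, hn, ?_, hn0, fun i hi => ?_⟩
  · by_contra hcon
    push Not at hcon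
    have h1 := h (e.symm (Sum.inr ⟨n, hcon⟩))
    rw [Equiv.apply_symm_apply] at h1
    simp only [Sum.elim_inr] at h1
    have h2 : (n : ℝ) * (1 / (2 * n)) = 1 / 2 := by
      have : (n : ℝ) ≠ 0 := by exact_mod_cast hn0.ne'
      field_simp
    rw [h2] at h1
    have h3 := h1.trans_le (min_le_right _ _)
    rw [round_eq] at h3
    norm_num at h3
  · have h1 := h (e.symm (Sum.inl ⟨i, hi⟩))
    rw [Equiv.apply_symm_apply] at h1
    simp only [Sum.elim_inl] at h1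
    exact h1.trans_le (min_le_left _ _)

/-- exponentials beat the error terms -/
lemma ev_small {r r' K δ : ℝ} (h0 : 0 ≤ r') (h : r' < r) (hδ : 0 < δ) :
    ∀ᶠ n : ℕ in atTop, K * (n ^ 2 * r' ^ n) ≤ δ * r ^ n := by
  have hr : 0 < r := h0.trans_lt h
  have h1 : Tendsto (fun n : ℕ => (n : ℝ) ^ 2 * (r' / r) ^ n) atTop (𝓝 0) :=
    tendsto_pow_const_mul_const_pow_of_lt_one 2 (by positivity) ((div_lt_one hr).mpr h)
  have h2 : Tendsto (fun n : ℕ => K * ((n : ℝ) ^ 2 * (r' / r) ^ n)) atTop (𝓝 0) := by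
    simpa using h1.const_mul K
  filter_upwards [h2.eventually_le_const hδ] with n hn
  have hrn : 0 < r ^ n := by positivity
  have e : K * ((n : ℝ) ^ 2 * r' ^ n) = K * ((n : ℝ) ^ 2 * (r' / r) ^ n) * r ^ n := by
    rw [div_pow]
    field_simp
  rw [e]
  gcongr

lemma cos_ge_half {x : ℝ} (h : dn x ≤ 1 / 6) : 1 / 2 ≤ Real.cos (2 * Real.pi * x) := by
  rw [cos_dn]
  have h1 : Real.cos (Real.pi / 3) = 1 / 2 := Real.cos_pi_div_three
  rw [← h1]
  apply Real.cos_le_cos_of_nonneg_of_le_pi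
  · have := dn_nonneg x; positivity
  · linarith [Real.pi_pos]
  · have := Real.pi_pos
    nlinarith

/-- an off-line point makes the coefficients negative on a Bohr set -/
theorem neg_on_bohr (h : Admissible μ) {ρ₀ : ℂ} (h0 : μ ρ₀ ≠ 0) (hne : ρ₀.re ≠ 1 / 2) :
    ∃ (J : Finset ℂ) (c : ℝ) (N : ℕ), 0 < c ∧ ∀ n : ℕ, N ≤ n → (∀ ρ ∈ J, dn (n * ang ρ) ≤ 1 / 6) →
      li μ n ≤ -Real.exp (c * n) := by
  obtain ⟨J, r, r', K, hJ, hJ2, hr', hr, hK, has⟩ := asymp h h0 hne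
  have hr1 : 1 < r := hr'.trans_lt hr
  obtain ⟨N, hN⟩ := eventually_atTop.mp (ev_small (K := K) (δ := 1 / 4) (by linarith) hr (by norm_num))
  -- exp (c n) ≤ r ^ n / 4
  have h5 : ∀ᶠ n : ℕ in atTop, (n : ℕ) ≥ 1 ∧ Real.exp (Real.log r / 2 * n) ≤ r ^ n / 4 := by
    have hs : 1 < Real.exp (Real.log r / 2) := by
      rw [Real.one_lt_exp_iff]
      have := Real.log_pos hr1
      positivity
    have h6 : Tendsto (fun n : ℕ => Real.exp (Real.log r / 2) ^ n) atTop atTop :=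
      tendsto_pow_atTop_atTop_of_one_lt hs
    filter_upwards [h6.eventually_ge_atTop 4, eventually_ge_atTop 1] with n hn hn1
    refine ⟨hn1, ?_⟩
    have e1 : Real.exp (Real.log r / 2 * n) = Real.exp (Real.log r / 2) ^ n := by
      rw [← Real.exp_nat_mul]
      congr 1
      ring
    have e2 : r ^ n = Real.exp (Real.log r / 2) ^ n * Real.exp (Real.log r / 2) ^ n := by
      rw [← mul_pow, ← Real.exp_add, add_halves, Real.exp_log (by linarith)]
    rw [e1, e2]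
    nlinarith
  obtain ⟨N2, hN2⟩ := eventually_atTop.mp h5
  refine ⟨J, Real.log r / 2, max N N2, by have := Real.log_pos hr1; positivity, fun n hn hB => ?_⟩
  obtain ⟨hn1, hexp⟩ := hN2 n ((le_max_right _ _).trans hn)
  have h1 := hN n ((le_max_left _ _).trans hn)
  have h2 := has n hn1
  have h3 : r ^ n / 2 ≤ ∑ ρ ∈ J, (μ ρ : ℝ) * ((1 - 1 / ρ) ^ n).re := by
    obtain ⟨ρ₁, hρ₁⟩ := hJ
    have hrn : 0 < r ^ n := by positivity
    have hterm : ∀ ρ ∈ J, r ^ n / 2 ≤ (μ ρ : ℝ) * ((1 - 1 / ρ) ^ n).re := by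
      intro ρ hρ
      obtain ⟨g1, g2⟩ := hJ2 ρ hρ
      rw [pow_re_eq, g2]
      have g3 := cos_ge_half (hB ρ hρ)
      have g4 : (1 : ℝ) ≤ μ ρ := by exact_mod_cast Nat.one_le_iff_ne_zero.mpr g1
      calc r ^ n / 2 = 1 * (r ^ n * (1 / 2)) := by ring
        _ ≤ (μ ρ : ℝ) * (r ^ n * Real.cos (2 * Real.pi * (n * ang ρ))) := by gcongr
    calc r ^ n / 2 ≤ (μ ρ₁ : ℝ) * ((1 - 1 / ρ₁) ^ n).re := hterm ρ₁ hρ₁
      _ ≤ ∑ ρ ∈ J, (μ ρ : ℝ) * ((1 - 1 / ρ) ^ n).re :=
          Finset.single_le_sum (f := fun ρ => (μ ρ : ℝ) * ((1 - 1 / ρ) ^ n).re)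
            (fun ρ hρ => by have := hterm ρ hρ; linarith [hrn.le]) hρ₁
  have h4 := (abs_le.mp h2).2
  linarith

end Pool.Agent.Helper39.LiS
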