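import Pool.Agent.Helper39.LiS.Sign

set_option autoImplicit false

/-!
# Bohr neighbourhoods of zero have bounded gaps
-/

namespace Pool.Agent.Helper39.LiS

open Complex Filter Topology

/-- the cell of the circle in which a point lies -/
noncomputable def cell (Q : ℕ) [NeZero Q] (x : ℝ) : Fin Q :=
  ⟨⌊Int.fract x * Q⌋₊, by
    have hQ : (0 : ℝ) < Q := by exact_mod_cast Nat.pos_of_ne_zero (NeZero.ne Q)
    rw [Nat.floor_lt (by have := Int.fract_nonneg x; positivity)]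
    calc Int.fract x * Q < 1 * Q := by
          have := Int.fract_lt_one x
          gcongr
      _ = Q := one_mul _⟩

lemma dn_of_cell {Q : ℕ} [NeZero Q] {x y : ℝ} (h : cell Q x = cell Q y) : dn (x - y) < 1 / Q := by
  have hQ : (0 : ℝ) < Q := by exact_mod_cast Nat.pos_of_ne_zero (NeZero.ne Q)
  have h1 : ⌊Int.fract x * Q⌋₊ = ⌊Int.fract y * Q⌋₊ := by
    have := congrArg Fin.val h
    exact this
  have hx := Int.fract_nonneg x
  have hy := Int.fract_nonneg y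
  have a1 := Nat.floor_le (show 0 ≤ Int.fract x * Q by positivity)
  have a2 := Nat.lt_floor_add_one (Int.fract x * Q)
  have b1 := Nat.floor_le (show 0 ≤ Int.fract y * Q by positivity)
  have b2 := Nat.lt_floor_add_one (Int.fract y * Q)
  rw [h1] at a1 a2
  have h2 : |Int.fract x - Int.fract y| * Q < 1 := by
    have e : |Int.fract x - Int.fract y| * Q = |(Int.fract x - Int.fract y) * Q| := by
      rw [abs_mul, abs_of_pos hQ]
    rw [e, abs_lt]
    constructor <;> nlinarith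
  calc dn (x - y) ≤ |x - y - (⌊x⌋ - ⌊y⌋ : ℤ)| := dn_le _ _
    _ = |Int.fract x - Int.fract y| := by
        congr 1
        unfold Int.fract
        push_cast
        ring
    _ < 1 / Q := by rw [lt_div_iff₀ hQ]; exact h2

lemma exists_cells {ε : ℝ} (hε : 0 < ε) : ∃ Q : ℕ, 0 < Q ∧ 1 / (Q : ℝ) < ε := by
  obtain ⟨n, hn⟩ := exists_nat_one_div_lt hε
  exact ⟨n + 1, Nat.succ_pos _, by exact_mod_cast hn⟩

/-- Bohr neighbourhoods of zero have bounded gaps -/
lemma syndetic {ι : Type*} (J : Finset ι) (α : ι → ℝ) {ε : ℝ} (hε : 0 < ε) :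
    ∃ B : ℕ, ∀ N : ℕ, ∃ b : ℕ, N < b ∧ b ≤ N + B ∧ ∀ i ∈ J, dn (b * α i) < ε := by
  classical
  obtain ⟨Q, hQ0, hQ⟩ := exists_cells hε
  have : NeZero Q := ⟨hQ0.ne'⟩
  obtain ⟨c, hc⟩ : ∃ c : ℕ → (J → Fin Q), c = fun (n : ℕ) (i : J) => cell Q (n * α i) := ⟨_, rfl⟩
  obtain ⟨rep, hrep⟩ : ∃ rep : (J → Fin Q) → ℕ, ∀ n, c (rep (c n)) = c n := by
    refine ⟨fun k => if h : ∃ m, c m = k then Nat.find h else 0, fun n => ?_⟩
    have h : ∃ m, c m = c n := ⟨n, rfl⟩
    simp only [dif_pos h]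
    exact Nat.find_spec h
  obtain ⟨B, hB⟩ : ∃ B : ℕ, ∀ k, rep k ≤ B :=
    ⟨Finset.univ.sup rep, fun k => Finset.le_sup (Finset.mem_univ k)⟩
  refine ⟨B + 1, fun N => ?_⟩
  have h1 := hB (c (N + B + 1))
  refine ⟨N + B + 1 - rep (c (N + B + 1)), by omega, by omega, fun i hi => ?_⟩
  have h2 := congrFun (hrep (N + B + 1)) ⟨i, hi⟩
  have hc' : ∀ n : ℕ, c n ⟨i, hi⟩ = cell Q (n * α i) := fun n => by rw [hc]
  rw [hc', hc'] at h2
  have h3 := dn_of_cell h2.symm
  refine lt_of_eq_of_lt ?_ (h3.trans hQ)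
  congr 1
  rw [Nat.cast_sub (by omega)]
  ring

/-- all the natural numbers: Dirichlet's theorem -/
lemma bohr_univ : BohrRecurrent Set.univ := by
  intro k α ε hε
  obtain ⟨B, hB⟩ := syndetic (Finset.univ : Finset (Fin k)) α hε
  obtain ⟨b, hb, _, h⟩ := hB 0
  exact ⟨b, trivial, hb, fun i => h i (Finset.mem_univ i)⟩

/-- sets with arbitrarily long intervals -/
lemma bohr_thick {S : Set ℕ} (hS : ∀ K : ℕ, ∃ N : ℕ, ∀ n : ℕ, N < n → n ≤ N + K → n ∈ S) :
    BohrRecurrent S := by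
  intro k α ε hε
  obtain ⟨B, hB⟩ := syndetic (Finset.univ : Finset (Fin k)) α hε
  obtain ⟨N, hN⟩ := hS B
  obtain ⟨b, hb, hb2, h⟩ := hB N
  exact ⟨b, hN b hb hb2, by omega, fun i => h i (Finset.mem_univ i)⟩

/-- differences of an infinite set -/
lemma bohr_diff {A : Set ℕ} (hA : A.Infinite) : BohrRecurrent {n | ∃ a ∈ A, ∃ b ∈ A, b < a ∧ n = a - b} := by
  intro k α ε hε
  obtain ⟨Q, hQ0, hQ⟩ := exists_cells hε
  have : NeZero Q := ⟨hQ0.ne'⟩
  obtain ⟨a, ha, b, hb, hab, h⟩ := hA.exists_ne_map_eq_of_mapsTo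
    (f := fun n : ℕ => fun i : Fin k => cell Q (n * α i)) (t := Set.univ)
    (fun _ _ => trivial) Set.finite_univ
  rcases lt_or_gt_of_ne hab with h1 | h1
  · refine ⟨b - a, ⟨b, hb, a, ha, h1, rfl⟩, by omega, fun i => ?_⟩
    have h2 := dn_of_cell (congrFun h i).symm
    refine lt_of_eq_of_lt ?_ (h2.trans hQ)
    show dn _ = dn _
    congr 1
    rw [Nat.cast_sub h1.le]
    ring
  · refine ⟨a - b, ⟨a, ha, b, hb, h1, rfl⟩, by omega, fun i => ?_⟩
    have h2 := dn_of_cell (congrFun h i)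
    refine lt_of_eq_of_lt ?_ (h2.trans hQ)
    show dn _ = dn _
    congr 1
    rw [Nat.cast_sub h1.le]
    ring

end Pool.Agent.Helper39.LiS
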