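import Pool.Graph.R_seed8.H373R2.T7.SupE2

set_option autoImplicit false

/-!
# Vinogradov's theorem for exponential sums over primes, at a fixed irrational frequency
-/

namespace Pool.Agent.Helper39.LiS

open Finset
open Pool.Agent.H807R2.Dav
open Pool.Agent.H373R2.T7

/-- the totient function tends to infinity -/
lemma tot_large (X : ℕ) : ∃ K : ℕ, ∀ q : ℕ, K ≤ q → X < Nat.totient q := by
  refine ⟨(2 * X).factorial + 1, fun q hq => ?_⟩
  by_contra hcon
  push Not at hcon
  have hq0 : 0 < q := by omega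
  have h1 : q ∣ (2 * X).factorial := by
    rw [Nat.dvd_iff_prime_pow_dvd_dvd]
    intro p k hp hpk
    rcases Nat.eq_zero_or_pos k with h0 | h0
    · rw [h0, pow_zero]
      exact one_dvd _
    have h2 : Nat.totient (p ^ k) ∣ Nat.totient q := Nat.totient_dvd_of_dvd hpk
    have h3 : Nat.totient (p ^ k) ≤ X := (Nat.le_of_dvd (Nat.totient_pos.mpr hq0) h2).trans hcon
    rw [Nat.totient_prime_pow hp h0] at h3
    have h4 : p ^ k ≤ 2 * X := by
      have h5 : p ≤ 2 * (p - 1) := by have := hp.two_le; omega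
      calc p ^ k = p ^ (k - 1) * p := by
            rw [← pow_succ]
            congr 1
            omega
        _ ≤ p ^ (k - 1) * (2 * (p - 1)) := Nat.mul_le_mul_left _ h5
        _ = 2 * (p ^ (k - 1) * (p - 1)) := by ring
        _ ≤ 2 * X := Nat.mul_le_mul_left _ h3
    exact Nat.dvd_factorial (pow_pos hp.pos k) h4
  have h6 := Nat.le_of_dvd (Nat.factorial_pos _) h1
  omega

/-- the local model of the von Mangoldt function -/
noncomputable def fq (q n : ℕ) : ℝ := if n.Coprime q then (q : ℝ) / q.totient else 0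

lemma count_ap (q : ℕ) (hq : 1 ≤ q) (y c : ℕ) :
    |(((Icc 1 y).filter (fun n => n ≡ c [MOD q])).card : ℝ) - y / q| ≤ 1 := by
  have hq0 : (0 : ℝ) < q := by exact_mod_cast hq
  have e1 : Icc 1 y = Ioc 0 y := by ext; simp [Nat.succ_le_iff]
  have h1 := Nat.Ioc_filter_modEq_card 0 y (show 0 < q by omega) c
  rw [← e1] at h1
  have h2 : ((((Icc 1 y).filter (fun n => n ≡ c [MOD q])).card : ℤ)) =
      ⌊((y : ℚ) - c) / (q : ℚ)⌋ - ⌊((0 : ℕ) - (c : ℚ)) / (q : ℚ)⌋ := by
    rw [h1, max_eq_left]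
    rw [sub_nonneg]
    apply Int.floor_le_floor
    gcongr
    simp
  have h3 := Int.floor_le (((y : ℚ) - c) / (q : ℚ))
  have h4 := Int.lt_floor_add_one (((y : ℚ) - c) / (q : ℚ))
  have h5 := Int.floor_le (((0 : ℕ) - (c : ℚ)) / (q : ℚ))
  have h6 := Int.lt_floor_add_one (((0 : ℕ) - (c : ℚ)) / (q : ℚ))
  have h7 : ((((Icc 1 y).filter (fun n => n ≡ c [MOD q])).card : ℚ)) =
      (⌊((y : ℚ) - c) / (q : ℚ)⌋ : ℚ) - ⌊((0 : ℕ) - (c : ℚ)) / (q : ℚ)⌋ := by exact_mod_cast h2
  have h8 : |(((Icc 1 y).filter (fun n => n ≡ c [MOD q])).card : ℚ) - y / q| ≤ 1 := by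
    rw [h7, abs_le]
    have h9 : ((y : ℚ) - c) / (q : ℚ) - ((0 : ℕ) - (c : ℚ)) / (q : ℚ) = y / q := by
      rw [← sub_div]
      congr 1
      push_cast
      ring
    constructor <;> linarith
  have h10 := (Rat.cast_le (K := ℝ)).mpr h8
  push_cast at h10
  exact h10

lemma fq_ap (q : ℕ) (hq : 1 ≤ q) (y c : ℕ) :
    |∑ n ∈ (Icc 1 y).filter (fun n => n ≡ c [MOD q]), fq q n -
      (if c.Coprime q then (y : ℝ) / (Nat.totient q : ℝ) else 0)| ≤ q := by
  have hq0 : (0 : ℝ) < q := by exact_mod_cast hq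
  have ht : 0 < Nat.totient q := Nat.totient_pos.mpr (by omega)
  have ht1 : (1 : ℝ) ≤ Nat.totient q := by exact_mod_cast ht
  have hc : ∀ n ∈ (Icc 1 y).filter (fun n => n ≡ c [MOD q]), (n.Coprime q ↔ c.Coprime q) := by
    intro n hn
    rw [mem_filter] at hn
    unfold Nat.Coprime
    rw [Nat.ModEq.gcd_eq hn.2]
  by_cases h : c.Coprime q
  · rw [if_pos h]
    have h1 : ∑ n ∈ (Icc 1 y).filter (fun n => n ≡ c [MOD q]), fq q n =
        (((Icc 1 y).filter (fun n => n ≡ c [MOD q])).card : ℝ) * ((q : ℝ) / q.totient) := by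
      rw [sum_congr rfl (g := fun _ => (q : ℝ) / q.totient)]
      · rw [sum_const, nsmul_eq_mul]
      · intro n hn
        unfold fq
        rw [if_pos ((hc n hn).mpr h)]
    have h2 : (((Icc 1 y).filter (fun n => n ≡ c [MOD q])).card : ℝ) * ((q : ℝ) / q.totient) -
        (y : ℝ) / (Nat.totient q : ℝ) =
        ((((Icc 1 y).filter (fun n => n ≡ c [MOD q])).card : ℝ) - y / q) * ((q : ℝ) / q.totient) := by
      field_simp
    rw [h1, h2, abs_mul, abs_of_nonneg (show 0 ≤ (q : ℝ) / q.totient by positivity)]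
    have h3 := count_ap q hq y c
    calc |(((Icc 1 y).filter (fun n => n ≡ c [MOD q])).card : ℝ) - y / q| * ((q : ℝ) / q.totient)
        ≤ 1 * ((q : ℝ) / 1) := by gcongr
      _ = q := by ring
  · rw [if_neg h, sum_eq_zero]
    · simp
    · intro n hn
      unfold fq
      rw [if_neg fun h2 => h ((hc n hn).mp h2)]

/-- inclusion and exclusion for the model -/
lemma fq_eq (q : ℕ) (hq : 1 ≤ q) (n : ℕ) : fq q n =
    (q : ℝ) / q.totient * ∑ d ∈ q.divisors, if d ∣ n then ((ArithmeticFunction.moebius d : ℤ) : ℝ) else 0 := by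
  have h1 : ∑ d ∈ (n.gcd q).divisors, ArithmeticFunction.moebius d = if n.gcd q = 1 then 1 else 0 := by
    rw [← ArithmeticFunction.coe_mul_zeta_apply, ArithmeticFunction.moebius_mul_coe_zeta,
      ArithmeticFunction.one_apply]
  have h2 : (n.gcd q).divisors = q.divisors.filter (fun d => d ∣ n) := by
    ext d
    rw [Nat.mem_divisors, mem_filter, Nat.mem_divisors, Nat.dvd_gcd_iff]
    have : n.gcd q ≠ 0 := by
      intro h0
      rw [Nat.gcd_eq_zero_iff] at h0
      omega
    constructor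
    · rintro ⟨⟨a, b⟩, _⟩
      exact ⟨⟨b, by omega⟩, a⟩
    · rintro ⟨⟨a, _⟩, b⟩
      exact ⟨⟨b, a⟩, this⟩
  rw [h2, sum_filter] at h1
  have h3 : (∑ d ∈ q.divisors, if d ∣ n then ((ArithmeticFunction.moebius d : ℤ) : ℝ) else 0) =
      if n.gcd q = 1 then 1 else 0 := by
    have := congrArg (fun z : ℤ => (z : ℝ)) h1
    push_cast at this
    exact this
  rw [h3]
  unfold fq Nat.Coprime
  split_ifs <;> simp

/-- the exponential sum of the model -/
lemma fq_sum {q : ℕ} (hq : 1 ≤ q) {b : ℤ} (hcop : IsCoprime b (q : ℤ)) {θ : ℝ}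
    (hθ : 2 * Real.pi * |θ - b / q| * q ^ 2 ≤ 1) (N : ℕ) :
    ‖∑ n ∈ Icc 1 N, ((fq q n : ℝ) : ℂ) * ee (n * θ)‖ ≤ N / q.totient + q ^ 3 := by
  have hq0 : (0 : ℝ) < q := by exact_mod_cast hq
  have hq1 : (1 : ℝ) ≤ q := by exact_mod_cast hq
  have ht : 0 < Nat.totient q := Nat.totient_pos.mpr (by omega)
  have ht1 : (1 : ℝ) ≤ Nat.totient q := by exact_mod_cast ht
  have h1 : ∑ n ∈ Icc 1 N, ((fq q n : ℝ) : ℂ) * ee (n * θ) =
      (((q : ℝ) / q.totient : ℝ) : ℂ) * ∑ d ∈ q.divisors, ((ArithmeticFunction.moebius d : ℤ) : ℂ) *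
        ∑ m ∈ Ico 1 (N / d + 1), ee (m * (d * θ)) := by
    have h2 : ∀ n ∈ Icc 1 N, ((fq q n : ℝ) : ℂ) * ee (n * θ) = (((q : ℝ) / q.totient : ℝ) : ℂ) *
        ∑ d ∈ q.divisors, if d ∣ n then ((ArithmeticFunction.moebius d : ℤ) : ℂ) * ee (n * θ) else 0 := by
      intro n _
      rw [fq_eq q hq n]
      push_cast
      rw [mul_assoc, sum_mul]
      congr 1
      refine sum_congr rfl fun d _ => ?_
      split_ifs <;> simp
    rw [sum_congr rfl h2, ← mul_sum, sum_comm]
    congr 1
    refine sum_congr rfl fun d hd => ?_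
    have hd0 : 0 < d := Nat.pos_of_mem_divisors hd
    rw [← sum_filter, mul_sum]
    symm
    refine sum_bij' (fun m _ => m * d) (fun n _ => n / d) ?_ ?_ ?_ ?_ ?_
    · intro m hm
      rw [mem_Ico] at hm
      rw [mem_filter, mem_Icc]
      have h3 : m ≤ N / d := by omega
      refine ⟨⟨Nat.mul_pos (by omega) hd0, ?_⟩, dvd_mul_left _ _⟩
      exact (Nat.mul_le_mul_right d h3).trans (Nat.div_mul_le_self N d)
    · intro n hn
      rw [mem_filter, mem_Icc] at hn
      rw [mem_Ico]
      constructor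
      · exact Nat.div_pos (Nat.le_of_dvd (by omega) hn.2) hd0
      · exact Nat.lt_succ_of_le (Nat.div_le_div_right hn.1.2)
    · intro m _
      exact Nat.mul_div_cancel m hd0
    · intro n hn
      rw [mem_filter] at hn
      exact Nat.div_mul_cancel hn.2
    · intro m _
      congr 2
      push_cast
      ring
  rw [h1, norm_mul, Complex.norm_real, Real.norm_of_nonneg (by positivity)]
  have hmu : ∀ d : ℕ, ‖((ArithmeticFunction.moebius d : ℤ) : ℂ)‖ ≤ 1 := by
    intro d
    have h3 := ArithmeticFunction.abs_moebius_le_one (n := d)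
    rw [Complex.norm_intCast]
    exact_mod_cast h3
  have hterm : ∀ d ∈ q.divisors, ‖((ArithmeticFunction.moebius d : ℤ) : ℂ) *
      ∑ m ∈ Ico 1 (N / d + 1), ee (m * (d * θ))‖ ≤ (if d = q then (N : ℝ) / q else 0) + q := by
    intro d hd
    have hd0 : 0 < d := Nat.pos_of_mem_divisors hd
    have hdq : d ∣ q := Nat.dvd_of_mem_divisors hd
    rw [norm_mul]
    have h4 : ‖∑ m ∈ Ico 1 (N / d + 1), ee (m * (d * θ))‖ ≤ (if d = q then (N : ℝ) / q else 0) + q := by
      by_cases hdq2 : d = q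
      · rw [if_pos hdq2]
        refine (norm_sum_le _ _).trans ?_
        simp only [norm_ee, sum_const, Nat.card_Ico, nsmul_eq_mul, mul_one, Nat.add_sub_cancel]
        have h5 : ((N / d : ℕ) : ℝ) ≤ (N : ℝ) / d := Nat.cast_div_le
        rw [hdq2] at h5 ⊢
        linarith
      · rw [if_neg hdq2, zero_add]
        have h5 := geo_bound 1 (N / d + 1) (Nat.le_add_left 1 _) (M := N) (by
          push_cast
          have h6 : ((N / d : ℕ) : ℝ) ≤ (N : ℝ) := by exact_mod_cast Nat.div_le_self N d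
          linarith) (d * θ)
        refine h5.trans ?_
        have h6 : (3 : ℝ) / q ≤ dd (d * θ) := by
          -- d b / q is not an integer
          have h7 : dd ((d : ℝ) * (b / q)) - 2 * Real.pi * |(d : ℝ) * (θ - b / q)| ≤ dd (d * θ) := by
            have := dd_add_ge ((d : ℝ) * (b / q)) ((d : ℝ) * (θ - b / q))
            convert this using 2
            ring
          have h8 : 2 * Real.pi * |(d : ℝ) * (θ - b / q)| ≤ 1 / q := by
            rw [abs_mul, abs_of_nonneg (Nat.cast_nonneg d)]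
            have h9 : (d : ℝ) ≤ q := by exact_mod_cast Nat.le_of_dvd (by omega) hdq
            rw [le_div_iff₀ hq0]
            calc 2 * Real.pi * ((d : ℝ) * |θ - b / q|) * q ≤ 2 * Real.pi * ((q : ℝ) * |θ - b / q|) * q := by
                  have := Real.pi_pos
                  gcongr
              _ = 2 * Real.pi * |θ - b / q| * q ^ 2 := by ring
              _ ≤ 1 := hθ
          have h10 : (4 : ℝ) / q ≤ dd ((d : ℝ) * (b / q)) := by
            obtain ⟨r, hr⟩ : ∃ r : ℤ, r = ((d : ℤ) * b) % (q : ℤ) := ⟨_, rfl⟩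
            have hqz : (0 : ℤ) < q := by exact_mod_cast hq
            have hr0 : 0 ≤ r := by rw [hr]; exact Int.emod_nonneg _ hqz.ne'
            have hr1 : r < q := by rw [hr]; exact Int.emod_lt_of_pos _ hqz
            have hrne : r ≠ 0 := by
              intro h0
              rw [h0] at hr
              have h11 : (q : ℤ) ∣ (d : ℤ) * b := Int.dvd_of_emod_eq_zero hr.symm
              have h12 : (q : ℤ) ∣ (d : ℤ) := hcop.symm.dvd_of_dvd_mul_right h11
              have h13 : q ∣ d := by exact_mod_cast h12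
              exact hdq2 (Nat.dvd_antisymm hdq h13)
            have e1 : (d : ℝ) * (b / q) = (r : ℝ) / q + (((d : ℤ) * b) / (q : ℤ) : ℤ) := by
              have h11 := Int.emod_add_mul_ediv ((d : ℤ) * b) (q : ℤ)
              rw [← hr] at h11
              have h12 : (r : ℝ) + q * ((((d : ℤ) * b) / (q : ℤ) : ℤ) : ℝ) = d * b := by exact_mod_cast h11
              field_simp
              linarith
            rw [e1, dd_add_int]
            have hr0' : (1 : ℝ) ≤ r := by exact_mod_cast (by omega : (1 : ℤ) ≤ r)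
            have hr1' : (r : ℝ) ≤ q - 1 := by exact_mod_cast (by omega : r ≤ (q : ℤ) - 1)
            have h11 := dd_ge (t := (r : ℝ) / q) (by positivity) (by rw [div_le_one hq0]; linarith)
            refine le_trans ?_ h11
            have h12 : (1 : ℝ) / q ≤ min ((r : ℝ) / q) (1 - r / q) := by
              apply le_min
              · gcongr
              · rw [div_le_iff₀ hq0, sub_mul, div_mul_cancel₀ _ hq0.ne']
                linarith
            calc (4 : ℝ) / q = 4 * (1 / q) := by ring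
              _ ≤ _ := by gcongr
          have h14 : (4 : ℝ) / q - 1 / q = 3 / q := by ring
          linarith
        have h7 := KK_le' (M := N) (Nat.cast_nonneg N) (show (0 : ℝ) < 3 / q by positivity) h6
        refine h7.trans (le_of_eq ?_)
        field_simp
    have h5 : 0 ≤ (if d = q then (N : ℝ) / q else 0) + q := by
      have : 0 ≤ (if d = q then (N : ℝ) / q else 0) := by split_ifs <;> positivity
      linarith
    calc ‖((ArithmeticFunction.moebius d : ℤ) : ℂ)‖ * ‖∑ m ∈ Ico 1 (N / d + 1), ee (m * (d * θ))‖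
        ≤ 1 * ((if d = q then (N : ℝ) / q else 0) + q) := by
          gcongr
          exact hmu d
      _ = _ := one_mul _
  have hsum : ‖∑ d ∈ q.divisors, ((ArithmeticFunction.moebius d : ℤ) : ℂ) *
      ∑ m ∈ Ico 1 (N / d + 1), ee (m * (d * θ))‖ ≤ (N : ℝ) / q + q * q := by
    refine (norm_sum_le _ _).trans ((sum_le_sum hterm).trans ?_)
    rw [sum_add_distrib, sum_const, nsmul_eq_mul, sum_ite_eq' q.divisors q,
      if_pos (Nat.mem_divisors.mpr ⟨dvd_rfl, by omega⟩)]
    have : ((q.divisors.card : ℕ) : ℝ) ≤ q := by exact_mod_cast Nat.card_divisors_le_self q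
    gcongr
  calc (q : ℝ) / q.totient * ‖∑ d ∈ q.divisors, ((ArithmeticFunction.moebius d : ℤ) : ℂ) *
      ∑ m ∈ Ico 1 (N / d + 1), ee (m * (d * θ))‖ ≤ (q : ℝ) / q.totient * ((N : ℝ) / q + q * q) := by gcongr
    _ = N / q.totient + (q : ℝ) ^ 3 / q.totient := by field_simp
    _ ≤ N / q.totient + (q : ℝ) ^ 3 / 1 := by gcongr
    _ = _ := by rw [div_one]

end Pool.Agent.Helper39.LiS
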