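import Pool.Agent.Helper39.LiS.Vino

set_option autoImplicit false

/-!
# Vinogradov's theorem for exponential sums over primes, at a fixed irrational frequency
-/

namespace Pool.Agent.Helper39.LiS

open Finset
open Pool.Agent.H807R2.Dav
open Pool.Agent.H373R2.T7

/-- a fixed irrational number is not close to rationals with small denominators -/
lemma irr_gap {θ : ℝ} (hθ : Irrational θ) (K : ℕ) :
    ∃ η : ℝ, 0 < η ∧ ∀ q : ℕ, 1 ≤ q → q ≤ K → ∀ b : ℤ, η ≤ |θ * q - b| := by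
  induction K with
  | zero => exact ⟨1, one_pos, fun q h1 h2 => by omega⟩
  | succ K ih =>
    obtain ⟨η, hη, h⟩ := ih
    have h1 : 0 < |θ * ((K + 1 : ℕ) : ℝ) - round (θ * ((K + 1 : ℕ) : ℝ))| := by
      rw [abs_pos, sub_ne_zero]
      intro h0
      have h2 : Irrational (θ * ((K + 1 : ℕ) : ℝ)) := by
        have := hθ.mul_natCast (m := K + 1) (Nat.succ_ne_zero K)
        exact this
      exact h2 ⟨(round (θ * ((K + 1 : ℕ) : ℝ)) : ℚ), by rw [h0]; simp⟩
    refine ⟨min η _, lt_min hη h1, fun q hq1 hq2 b => ?_⟩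
    rcases Nat.lt_or_ge q (K + 1) with h2 | h2
    · exact (min_le_left _ _).trans (h q hq1 (by omega) b)
    · have h3 : q = K + 1 := by omega
      rw [h3]
      exact (min_le_right _ _).trans (round_le _ b)

/-- **Vinogradov** -/
theorem vino {θ : ℝ} (hθ : Irrational θ) {δ : ℝ} (hδ : 0 < δ) : ∃ N0 : ℕ, ∀ N : ℕ, N0 ≤ N →
    ‖∑ n ∈ Icc 1 N, ((ArithmeticFunction.vonMangoldt n : ℝ) : ℂ) * ee (n * θ)‖ ≤ δ * N := by
  obtain ⟨B, m1, hmin⟩ := minor_primes 1
  obtain ⟨m3, hap⟩ := lam_ap B (2 * B + 1)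
  obtain ⟨X, hX⟩ := exists_nat_gt (3 / δ)
  obtain ⟨K, hK⟩ := tot_large X
  obtain ⟨η, hη, hgap⟩ := irr_gap hθ K
  obtain ⟨n1, h1⟩ := ev_log' B (2 + 2 / η)
  obtain ⟨n2, h2⟩ := ev_log' (2 * B) 7
  obtain ⟨n3, h3⟩ := ev_log' (3 * B) (3 / δ)
  obtain ⟨n4, h4⟩ := ev_log' (3 * B + 1) 1
  obtain ⟨n5, h5⟩ := ev_L' (1 + 48 / δ)
  refine ⟨m1 + m3 + n1 + n2 + n3 + n4 + n5 + 4, fun N hN => ?_⟩
  have a1 := h1 N (by omega)
  have a2 := h2 N (by omega)
  have a3 := h3 N (by omega)
  have a4 := h4 N (by omega)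
  have hL := h5 N (by omega)
  have hN4 : 4 ≤ N := by omega
  have hNr : (4 : ℝ) ≤ N := by exact_mod_cast hN4
  have hN0 : (0 : ℝ) < N := by linarith
  obtain ⟨L, hLd⟩ : ∃ L : ℝ, L = Real.log N := ⟨_, rfl⟩
  rw [← hLd] at a1 a2 a3 a4 hL
  have h48 : 0 < 48 / δ := by positivity
  have hL1 : 1 ≤ L := by linarith
  have hL0 : 0 < L := by linarith
  have hLB1 : 1 ≤ L ^ B := one_le_pow₀ hL1
  have hLB0 : 0 < L ^ B := by positivity
  have hsN : √(N : ℝ) ≤ N := by
    rw [Real.sqrt_le_left (by positivity)]; nlinarith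
  have h2η : 0 < 2 / η := by positivity
  have h2LB : 2 * L ^ B ≤ N := by nlinarith
  -- Dirichlet
  obtain ⟨Q, hQ⟩ : ∃ Q : ℕ, Q = ⌊(N : ℝ) / L ^ B⌋₊ := ⟨_, rfl⟩
  have hNLB : 2 ≤ (N : ℝ) / L ^ B := by rw [le_div_iff₀ hLB0]; exact h2LB
  have hQpos : 0 < Q := by
    rw [hQ, Nat.floor_pos]
    linarith
  obtain ⟨r, hr1, hr2⟩ := Real.exists_rat_abs_sub_le_and_den_le θ hQpos
  obtain ⟨q, hq⟩ : ∃ q : ℕ, q = r.den := ⟨_, rfl⟩
  have hq1 : 1 ≤ q := by rw [hq]; exact r.den_pos
  have hq0 : (0 : ℝ) < q := by exact_mod_cast hq1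
  have hrq : ((r : ℚ) : ℝ) = (r.num : ℝ) / q := by
    rw [hq]; exact_mod_cast (Rat.num_div_den r).symm
  rw [hrq, ← hq] at hr1
  rw [← hq] at hr2
  have hcop : IsCoprime r.num (q : ℤ) := by
    rw [Int.isCoprime_iff_gcd_eq_one]
    have := r.reduced
    rw [Nat.Coprime, ← hq] at this
    rw [Int.gcd]
    simpa using this
  have hqQ : (q : ℝ) ≤ N / L ^ B := by
    have h1 : (q : ℝ) ≤ Q := by exact_mod_cast hr2
    rw [hQ] at h1
    exact h1.trans (Nat.floor_le (by positivity))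
  rcases le_or_gt (L ^ B) (q : ℝ) with hqb | hqs
  · -- minor
    have hα : |θ - (r.num : ℝ) / q| ≤ 1 / (q : ℝ) ^ 2 := by
      refine hr1.trans ?_
      rw [pow_two]
      apply one_div_le_one_div_of_le (by positivity)
      apply mul_le_mul_of_nonneg_right _ hq0.le
      have h1 : (q : ℝ) ≤ Q := by exact_mod_cast hr2
      linarith
    have h6 := hmin N (by omega) q (by rw [← hLd]; exact hqb) (by rw [← hLd]; exact hqQ) r.num hcop θ hα
    rw [← hLd, pow_one] at h6
    refine h6.trans ?_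
    rw [div_le_iff₀ hL0]
    have h7 : 1 ≤ δ * L := by
      have : δ * (48 / δ) = 48 := by field_simp
      nlinarith
    nlinarith
  · -- major
    obtain ⟨γ, hγ⟩ : ∃ γ : ℝ, γ = θ - (r.num : ℝ) / q := ⟨_, rfl⟩
    have hQN : (N : ℝ) / L ^ B ≤ (Q : ℝ) + 1 := by rw [hQ]; exact (Nat.lt_floor_add_one _).le
    have hqγ : |γ| * q ≤ L ^ B / N := by
      rw [hγ]
      calc |θ - (r.num : ℝ) / q| * q ≤ 1 / (((Q : ℝ) + 1) * q) * q := by gcongr
        _ = 1 / ((Q : ℝ) + 1) := by field_simp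
        _ ≤ 1 / ((N : ℝ) / L ^ B) := by gcongr
        _ = L ^ B / N := by rw [one_div_div]
    have hγ1 : |γ| ≤ L ^ B / N := by
      refine le_trans ?_ hqγ
      have h6 : (1 : ℝ) ≤ q := by exact_mod_cast hq1
      exact le_mul_of_one_le_right (abs_nonneg _) h6
    -- the denominator is large
    have hqK : K ≤ q := by
      by_contra hcon
      push Not at hcon
      have h6 := hgap q hq1 hcon.le r.num
      have h7 : |θ * q - r.num| = |γ| * q := by
        rw [← abs_of_pos hq0, ← abs_mul, hγ, abs_of_pos hq0]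
        congr 1
        field_simp
      rw [h7] at h6
      have h8 : L ^ B / N < η := by
        rw [div_lt_iff₀ hN0]
        have h9 : 2 / η * L ^ B ≤ N := by nlinarith
        rw [div_mul_eq_mul_div, div_le_iff₀ hη] at h9
        linarith
      linarith
    have hφ := hK q hqK
    have hφ' : (X : ℝ) ≤ Nat.totient q := by exact_mod_cast hφ.le
    -- the difference
    obtain ⟨f, hf⟩ : ∃ f : ℕ → ℝ, f = fun n => ArithmeticFunction.vonMangoldt n - fq q n := ⟨_, rfl⟩
    have hqN : (q : ℝ) ≤ N / L ^ (2 * B + 1) := by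
      rw [le_div_iff₀ (by positivity)]
      calc (q : ℝ) * L ^ (2 * B + 1) ≤ L ^ B * L ^ (2 * B + 1) := by gcongr
        _ = 1 * L ^ (3 * B + 1) := by rw [← pow_add, one_mul]; congr 1; ring
        _ ≤ N := a4.trans hsN
    have hAP : ∀ y : ℕ, y ≤ N → ∀ c : ℕ, |∑ n ∈ (Icc 1 y).filter (fun n => n ≡ c [MOD q]), f n| ≤
        2 * (N / L ^ (2 * B + 1)) := by
      intro y hy c
      have h6 := hap N (by omega) q hq1 (by rw [← hLd]; exact hqs.le) c y hy
      have h7 := fq_ap q hq1 y c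
      have h8 : ∑ n ∈ (Icc 1 y).filter (fun n => n ≡ c [MOD q]), f n =
          (∑ n ∈ (Icc 1 y).filter (fun n => n ≡ c [MOD q]), ArithmeticFunction.vonMangoldt n -
            (if c.Coprime q then (y : ℝ) / (Nat.totient q : ℝ) else 0)) -
          (∑ n ∈ (Icc 1 y).filter (fun n => n ≡ c [MOD q]), fq q n -
            (if c.Coprime q then (y : ℝ) / (Nat.totient q : ℝ) else 0)) := by
        rw [hf]
        simp only [sum_sub_distrib]
        ring
      rw [h8]
      refine (abs_sub _ _).trans ?_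
      rw [← hLd] at h6
      linarith
    have hpart : ∀ y : ℕ, y ≤ N → ‖∑ n ∈ Icc 1 y, ((f n : ℝ) : ℂ) * ee (n * ((r.num : ℝ) / q))‖ ≤
        2 * (N / L ^ (B + 1)) := by
      intro y hy
      have h6 := rat_twist f y q hq1 r.num (2 * (N / L ^ (2 * B + 1))) (hAP y hy)
      refine h6.trans ?_
      calc (q : ℝ) * (2 * (N / L ^ (2 * B + 1))) ≤ L ^ B * (2 * (N / L ^ (2 * B + 1))) := by gcongr
        _ = 2 * (N / L ^ (B + 1)) := by
            have e : L ^ (2 * B + 1) = L ^ B * L ^ (B + 1) := by rw [← pow_add]; congr 1; ring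
            rw [e]
            field_simp
    have h6 := abel_ee (fun n => ((f n : ℝ) : ℂ) * ee (n * ((r.num : ℝ) / q))) γ (2 * (N / L ^ (B + 1))) N hpart
    have h7 : ∑ n ∈ Icc 1 N, (((f n : ℝ) : ℂ) * ee (n * ((r.num : ℝ) / q))) * ee (n * γ) =
        ∑ n ∈ Icc 1 N, ((ArithmeticFunction.vonMangoldt n : ℝ) : ℂ) * ee (n * θ) -
        ∑ n ∈ Icc 1 N, ((fq q n : ℝ) : ℂ) * ee (n * θ) := by
      rw [← sum_sub_distrib]
      apply sum_congr rfl
      intro n _
      rw [mul_assoc, ← ee_add, hf]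
      have e : (n : ℝ) * ((r.num : ℝ) / q) + n * γ = n * θ := by rw [hγ]; ring
      rw [e]
      push_cast
      ring
    have h8 : (N : ℝ) * ‖ee γ - 1‖ ≤ 7 * L ^ B := by
      have h4 : ‖ee γ - 1‖ ≤ 2 * Real.pi * |γ| := by
        have := dd_le γ
        unfold dd at this
        rw [norm_sub_rev] at this
        exact this
      have h5 : |γ| * N ≤ L ^ B := by
        rw [le_div_iff₀ hN0] at hγ1
        exact hγ1
      have hpi : Real.pi < 3.15 := Real.pi_lt_d2
      have h6 : 0 ≤ |γ| * N := by positivity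
      calc (N : ℝ) * ‖ee γ - 1‖ ≤ N * (2 * Real.pi * |γ|) := by gcongr
        _ = 2 * Real.pi * (|γ| * N) := by ring
        _ ≤ 7 * (|γ| * N) := by
            apply mul_le_mul_of_nonneg_right _ h6
            linarith
        _ ≤ 7 * L ^ B := by linarith
    have h9 : 2 * (N / L ^ (B + 1)) * (1 + N * ‖ee γ - 1‖) ≤ δ / 3 * N := by
      calc 2 * (N / L ^ (B + 1)) * (1 + N * ‖ee γ - 1‖) ≤ 2 * (N / L ^ (B + 1)) * (8 * L ^ B) := by
            apply mul_le_mul_of_nonneg_left _ (by positivity)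
            linarith
        _ = (16 / L) * N := by
            rw [pow_succ]
            field_simp
            ring
        _ ≤ δ / 3 * N := by
            apply mul_le_mul_of_nonneg_right _ hN0.le
            rw [div_le_iff₀ hL0]
            have : δ * (48 / δ) = 48 := by field_simp
            nlinarith
    have h10 := fq_sum hq1 hcop (θ := θ) (by
      rw [← hγ]
      have hpi : Real.pi < 3.15 := Real.pi_lt_d2
      calc 2 * Real.pi * |γ| * (q : ℝ) ^ 2 = 2 * Real.pi * ((|γ| * q) * q) := by ring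
        _ ≤ 2 * Real.pi * ((L ^ B / N) * L ^ B) := by
            have := Real.pi_pos
            gcongr
        _ = (2 * Real.pi * L ^ (2 * B)) / N := by rw [two_mul B, pow_add]; ring
        _ ≤ 1 := by
            rw [div_le_one hN0]
            have h11 : 0 < L ^ (2 * B) := by positivity
            nlinarith) N
    have h11 : (q : ℝ) ^ 3 ≤ δ / 3 * N := by
      have h12 : (q : ℝ) ^ 3 ≤ L ^ (3 * B) := by
        calc (q : ℝ) ^ 3 ≤ (L ^ B) ^ 3 := by gcongr
          _ = L ^ (3 * B) := by rw [← pow_mul]; congr 1; ring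
      have h13 : 3 / δ * L ^ (3 * B) ≤ N := a3.trans hsN
      rw [div_mul_eq_mul_div, div_le_iff₀ hδ] at h13
      linarith
    have h12 : (N : ℝ) / q.totient ≤ δ / 3 * N := by
      have hX0 : 0 < 3 / δ := by positivity
      calc (N : ℝ) / q.totient ≤ N / (3 / δ) := by
            gcongr
            linarith
        _ = δ / 3 * N := by field_simp
    rw [h7] at h6
    have h13 := norm_sub_norm_le (∑ n ∈ Icc 1 N, ((ArithmeticFunction.vonMangoldt n : ℝ) : ℂ) * ee (n * θ))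
      (∑ n ∈ Icc 1 N, ((fq q n : ℝ) : ℂ) * ee (n * θ))
    linarith

end Pool.Agent.Helper39.LiS
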