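import Pool.Graph.R_pool_sql_team_seeded_843ab51a.V11271.LI.Zeta
import Pool.Agent.Helper39.LiS.Conv
import Pool.Agent.Helper39.LiS.Pos

set_option autoImplicit false

/-!
# The divisor of the nontrivial zeros of the Riemann zeta function
-/

namespace Pool.Agent.Helper39.LiS

open Complex Filter Topology
open scoped ComplexConjugate

/-- the nontrivial zeros of the Riemann zeta function, with multiplicity -/
noncomputable def zetaZeros (ρ : ℂ) : ℕ :=
  if 0 < ρ.re ∧ ρ.re < 1 then analyticOrderNatAt riemannZeta ρ else 0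

lemma zetaZeros_strip {ρ : ℂ} (h : zetaZeros ρ ≠ 0) : 0 < ρ.re ∧ ρ.re < 1 := by
  by_contra hc
  apply h
  unfold zetaZeros
  rw [if_neg hc]

lemma ne_one_of_strip {ρ : ℂ} (h : 0 < ρ.re ∧ ρ.re < 1) : ρ ≠ 1 := by
  rintro rfl
  simp at h

lemma zetaZeros_ne {ρ : ℂ} (h : 0 < ρ.re ∧ ρ.re < 1) : zetaZeros ρ ≠ 0 ↔ riemannZeta ρ = 0 := by
  unfold zetaZeros
  rw [if_pos h]
  have ha := V11271.LI.zeta_anal (ne_one_of_strip h)
  constructor
  · intro h1
    by_contra h2
    apply h1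
    unfold analyticOrderNatAt
    rw [ha.analyticOrderAt_eq_zero.mpr h2]
    rfl
  · intro h1 h2
    have h3 := V11271.LI.mm_one_le ⟨ρ, h1, h⟩
    unfold V11271.LI.mm at h3
    simp only at h3
    rw [h2] at h3
    norm_num at h3

lemma zetaZeros_im {ρ : ℂ} (h : zetaZeros ρ ≠ 0) : ρ.im ≠ 0 := by
  have h1 := zetaZeros_strip h
  rw [zetaZeros_ne h1] at h
  exact V11271.LI.Zr.im_ne ⟨ρ, h, h1⟩

lemma strip_refl {ρ : ℂ} (h : 0 < ρ.re ∧ ρ.re < 1) : 0 < (1 - conj ρ).re ∧ (1 - conj ρ).re < 1 := by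
  simp
  exact ⟨h.2, h.1⟩

lemma zetaZeros_refl (ρ : ℂ) : zetaZeros (1 - conj ρ) = zetaZeros ρ := by
  by_cases h : 0 < ρ.re ∧ ρ.re < 1
  · by_cases him : ρ.im = 0
    · have h1 : zetaZeros ρ = 0 := by
        by_contra hc
        exact zetaZeros_im hc him
      have h2 : zetaZeros (1 - conj ρ) = 0 := by
        by_contra hc
        refine zetaZeros_im hc ?_
        simp [him]
      rw [h1, h2]
    · unfold zetaZeros
      rw [if_pos h, if_pos (strip_refl h)]
      unfold analyticOrderNatAt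
      rw [V11271.LI.ord_symm him]
  · have h2 : ¬ (0 < (1 - conj ρ).re ∧ (1 - conj ρ).re < 1) := by
      intro h3
      apply h
      have := strip_refl h3
      simpa using this
    unfold zetaZeros
    rw [if_neg h, if_neg h2]

lemma zetaZeros_eq (ρ : V11271.LI.Zr) : (zetaZeros (ρ : ℂ) : ℝ) = V11271.LI.mm ρ := by
  unfold zetaZeros V11271.LI.mm
  rw [if_pos ρ.2.2]

lemma zetaZeros_sum : Summable fun ρ => (zetaZeros ρ : ℝ) / (1 + ‖ρ‖) ^ 2 := by
  have h1 : Summable fun ρ : V11271.LI.Zr => (zetaZeros (ρ : ℂ) : ℝ) / (1 + ‖(ρ : ℂ)‖) ^ 2 := by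
    refine Summable.of_nonneg_of_le (fun ρ => by positivity) (fun ρ => ?_) V11271.LI.cfg_zeta.sum_two
    rw [zetaZeros_eq, V11271.LI.zz_im]
    have h2 := Complex.abs_im_le_norm (ρ : ℂ)
    have h3 := V11271.LI.mm_one_le ρ
    gcongr
  have h2 : Function.Injective (Subtype.val : V11271.LI.Zr → ℂ) := Subtype.val_injective
  refine (h2.summable_iff fun ρ hρ => ?_).mp h1
  have h3 : zetaZeros ρ = 0 := by
    by_contra hc
    have h4 := zetaZeros_strip hc
    have h5 := (zetaZeros_ne h4).mp hc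
    exact hρ ⟨⟨ρ, h5, h4⟩, rfl⟩
  simp [h3]

lemma zeta_admissible : Admissible zetaZeros :=
  ⟨fun _ => zetaZeros_strip, zetaZeros_refl, zetaZeros_sum⟩

/-- the zeros outside the critical strip have real part at most zero -/
lemma re_cases {ρ : ℂ} (h : riemannZeta ρ = 0) : ρ.re ≤ 0 ∨ (0 < ρ.re ∧ ρ.re < 1) := by
  rcases le_or_gt ρ.re 0 with h1 | h1
  · exact Or.inl h1
  · refine Or.inr ⟨h1, ?_⟩
    by_contra h2
    push Not at h2
    exact riemannZeta_ne_zero_of_one_le_re h2 h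

/-- if all nontrivial zeros are on the critical line, RH -/
lemma rh_of_line (h : ∀ ρ : ℂ, zetaZeros ρ ≠ 0 → ρ.re = 1 / 2) : RiemannHypothesis := by
  intro s hs htriv hs1
  rcases re_cases hs with h1 | h1
  · -- a zero with nonpositive real part is trivial
    exfalso
    have hs0 : s ≠ 0 := by
      intro h0
      rw [h0, riemannZeta_zero] at hs
      norm_num at hs
    have hre : 1 ≤ (1 - s).re := by simp; linarith
    have hne : riemannZeta (1 - s) ≠ 0 := riemannZeta_ne_zero_of_one_le_re hre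
    have h1s : (1 - s) ≠ 0 := by
      intro h0
      rw [h0] at hre
      simp at hre
      linarith
    have e1 := riemannZeta_def_of_ne_zero hs0
    have e2 := riemannZeta_def_of_ne_zero h1s
    rw [hs] at e1
    rw [completedRiemannZeta_one_sub] at e2
    have hc : completedRiemannZeta s ≠ 0 := by
      intro h0
      rw [h0, zero_div] at e2
      exact hne e2
    have hG : Gammaℝ s = 0 := by
      by_contra hG
      exact (div_ne_zero hc hG) e1.symm
    rw [Gammaℝ_eq_zero_iff] at hG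
    obtain ⟨n, hn⟩ := hG
    rcases Nat.eq_zero_or_pos n with h0 | h0
    · rw [h0] at hn
      simp at hn
      exact hs0 hn
    · apply htriv
      refine ⟨n - 1, ?_⟩
      rw [hn]
      have : ((n - 1 : ℕ) : ℂ) + 1 = n := by
        have h2 : n - 1 + 1 = n := by omega
        exact_mod_cast h2
      rw [this]
      ring
  · exact h s ((zetaZeros_ne h1).mpr hs)

lemma line_of_rh (h : RiemannHypothesis) : ∀ ρ : ℂ, zetaZeros ρ ≠ 0 → ρ.re = 1 / 2 := by
  intro ρ hρ
  have h1 := zetaZeros_strip hρ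
  rw [zetaZeros_ne h1] at hρ
  refine h ρ hρ ?_ (ne_one_of_strip h1)
  rintro ⟨n, hn⟩
  have h2 := h1.1
  rw [hn] at h2
  simp at h2
  have : (0 : ℝ) ≤ n := Nat.cast_nonneg n
  linarith

lemma zeta_has_zero : ∃ ρ, zetaZeros ρ ≠ 0 := by
  obtain ⟨c, hc, T0, h⟩ := V11271.LI.lb_zeta
  obtain ⟨S, _, hS⟩ := h (max T0 1) (le_max_left _ _)
  rcases S.eq_empty_or_nonempty with h1 | ⟨ρ, _⟩
  · exfalso
    rw [h1, Finset.sum_empty] at hS
    have h2 : (1 : ℝ) ≤ max T0 1 := le_max_right _ _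
    nlinarith
  · exact ⟨ρ, (zetaZeros_ne ρ.2.2).mpr ρ.2.1⟩

lemma zetaZeros_conj (ρ : ℂ) : zetaZeros (conj ρ) = zetaZeros ρ := by
  by_cases h : 0 < ρ.re ∧ ρ.re < 1
  · have h2 : 0 < (conj ρ).re ∧ (conj ρ).re < 1 := by simpa using h
    unfold zetaZeros
    rw [if_pos h, if_pos h2]
    have h3 := H353.mu_conj ρ
    unfold H353.mu analyticOrderNatAt at h3
    rw [V11271.LI.ord_FF (ne_one_of_strip h), V11271.LI.ord_FF (ne_one_of_strip h2)] at h3
    exact h3
  · have h2 : ¬ (0 < (conj ρ).re ∧ (conj ρ).re < 1) := by simpa using h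
    unfold zetaZeros
    rw [if_neg h, if_neg h2]

end Pool.Agent.Helper39.LiS
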